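import Mathlib

/-!
# Project HS of helper263: shadowing transversally to an action of a vector group, abstract part

`X` is a metric space inside a normed space `F`, `g : X → X` a map, `Φ` an action of the vector group
`W`, `Λ` an invariant set.  At `x ∈ Λ` the tangent space splits as `Vs x ⊕ Vu x ⊕ c x W`, where `c x`
is the derivative of the orbit map.  Generalises `Pool.Agent.Q263.HR.Abs` (there `W = ℝ`); the proofs
are those of helper166 (`Pool.Agent.Q166.HR.Corr`) and helper26 (`Pool.Agent.Q26.HR.Lin`).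
-/

set_option autoImplicit false

open Filter Topology

namespace Q263.HS

structure Sys (X F W : Type*) [MetricSpace X] [NormedAddCommGroup F] [NormedSpace ℝ F]
    [NormedAddCommGroup W] [NormedSpace ℝ W] where
  e : X → F
  isom : ∀ x y, dist x y = ‖e x - e y‖
  g : X → X
  Φ : W → X → X
  Λ : Set X
  Vs : X → Submodule ℝ F
  Vu : X → Submodule ℝ F
  c : X → W →ₗ[ℝ] F
  D : X → F →ₗ[ℝ] F
  K : ℝ
  L : ℝ
  θ : ℝ
  one_le_K : 1 ≤ K
  one_le_L : 1 ≤ L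
  θ_nonneg : 0 ≤ θ
  Kθ : K * θ ≤ 1 / 16
  gcont : Continuous g
  Φcont : Continuous fun z : W × X => Φ z.1 z.2
  Φzero : ∀ x, Φ 0 x = x
  Φadd : ∀ s t x, Φ (s + t) x = Φ s (Φ t x)
  mapΛ : ∀ x ∈ Λ, g x ∈ Λ
  angle : ∀ x ∈ Λ, ∀ s ∈ Vs x, ∀ u ∈ Vu x, ∀ t : W,
    ‖s‖ ≤ K * ‖s + u + c x t‖ ∧ ‖u‖ ≤ K * ‖s + u + c x t‖ ∧ ‖t‖ ≤ K * ‖s + u + c x t‖
  mapS : ∀ x ∈ Λ, ∀ s ∈ Vs x, D x s ∈ Vs (g x)
  mapU : ∀ x ∈ Λ, ∀ u ∈ Vu x, D x u ∈ Vu (g x)
  surjU : ∀ x ∈ Λ, ∀ u ∈ Vu (g x), ∃ b ∈ Vu x, D x b = u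
  contrS : ∀ x ∈ Λ, ∀ s ∈ Vs x, ‖D x s‖ ≤ θ * ‖s‖
  contrU : ∀ x ∈ Λ, ∀ u ∈ Vu x, ‖u‖ ≤ θ * ‖D x u‖
  boundD : ∀ x ∈ Λ, ∀ s ∈ Vs x, ∀ u ∈ Vu x, ‖D x (s + u)‖ ≤ L * ‖s + u‖
  H1 : ∀ η > 0, ∃ r > 0, ∀ x ∈ Λ, ∀ y y', dist x y < r → dist x y' < r →
    ∃ s ∈ Vs x, ∃ u ∈ Vu x, ∃ t : W, ‖e y' - e y - (s + u + c x t)‖ ≤ η * dist y y'
  H2 : ∀ η > 0, ∃ r > 0, ∀ x ∈ Λ, ∀ y, dist x y < r → ∀ s ∈ Vs x, ∀ u ∈ Vu x, ‖s + u‖ < r →
    ∃ y', ‖e y' - e y - (s + u)‖ ≤ η * ‖s + u‖ ∧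
      ‖e (g y') - e (g y) - D x (s + u)‖ ≤ η * ‖s + u‖
  H4 : ∀ η > 0, ∃ r > 0, ∀ x ∈ Λ, ∀ x' ∈ Λ, dist x x' < r →
    ∀ u ∈ Vu x, ∃ u' ∈ Vu x', ‖u - u'‖ ≤ η * ‖u‖
  H5 : ∀ η > 0, ∃ r > 0, ∀ x ∈ Λ, ∀ x' ∈ Λ, dist x x' < r →
    ∀ s ∈ Vs x, ∃ s' ∈ Vs x', ‖s - s'‖ ≤ η * ‖s‖
  F1 : ∀ η > 0, ∃ r > 0, ∀ (τ : W) (y y' : X), ‖τ‖ < r → dist y y' < r →
    ‖(e (Φ τ y') - e (Φ τ y)) - (e y' - e y)‖ ≤ η * dist y y'
  F2 : ∀ η > 0, ∃ r > 0, ∀ (x w : X) (t : W), dist x w < r → ‖t‖ < r →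
    ‖e (Φ t w) - e w - c x t‖ ≤ η * ‖t‖

namespace Sys

variable {X F W : Type*} [MetricSpace X] [NormedAddCommGroup F] [NormedSpace ℝ F]
  [NormedAddCommGroup W] [NormedSpace ℝ W]

/-- one Newton step -/
def Corr (S : Sys X F W) : Prop := ∃ ρ > 0, ∀ (ι : Type) (σ : Equiv.Perm ι) (p : ι → X) (ε : ℝ)
  (y : ι → X) (τ : ι → W), (∀ i, p i ∈ S.Λ) → (∀ i, dist (S.g (p i)) (p (σ i)) < ρ) →
  0 < ε → ε < ρ → (∀ i, dist (p i) (y i) < ρ) → (∀ i, ‖τ i‖ < ρ) →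
  (∀ i, dist (S.Φ (τ i) (S.g (y i))) (y (σ i)) ≤ ε) →
  ∃ (y' : ι → X) (τ' : ι → W), (∀ i, dist (y i) (y' i) ≤ 2 * S.K * ε) ∧
    (∀ i, ‖τ' i - τ i‖ ≤ 2 * S.K * ε) ∧
    (∀ i, dist (S.Φ (τ' i) (S.g (y' i))) (y' (σ i)) ≤ ε / 2)

/-- shadowing up to small elements of the group -/
def Shad (S : Sys X F W) : Prop := ∀ η > 0, ∃ δ > 0, ∀ (ι : Type) (σ : Equiv.Perm ι) (p : ι → X),
  (∀ i, p i ∈ S.Λ) → (∀ i, dist (S.g (p i)) (p (σ i)) < δ) →
  ∃ (y : ι → X) (τ : ι → W), (∀ i, dist (p i) (y i) < η) ∧ (∀ i, ‖τ i‖ < η) ∧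
    ∀ i, S.Φ (τ i) (S.g (y i)) = y (σ i)

theorem corr (S : Sys X F W) : S.Corr := by
  have hK := S.one_le_K
  have hL := S.one_le_L
  have hθ := S.θ_nonneg
  have hKθ := S.Kθ
  have hK0 : 0 < S.K := by linarith
  have hL0 : 0 < S.L := by linarith
  obtain ⟨η, hηd⟩ : ∃ η : ℝ, η = 1 / (64 * (S.K * S.L)) := ⟨_, rfl⟩
  have hKL : 1 ≤ S.K * S.L := by nlinarith
  have hKL0 : 0 < S.K * S.L := by linarith
  have hη : 0 < η := by rw [hηd]; positivity
  have hηKL : η * (S.K * S.L) = 1 / 64 := by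
    rw [hηd]
    field_simp
  have hηK : η * S.K ≤ 1 / 64 := by
    have h1 : S.K ≤ S.K * S.L := by nlinarith
    have := mul_le_mul_of_nonneg_left h1 hη.le
    linarith
  have hη64 : η ≤ 1 / 64 := by
    have := mul_le_mul_of_nonneg_left hKL hη.le
    linarith
  obtain ⟨r1, hr1, H1⟩ := S.H1 η hη
  obtain ⟨r2, hr2, H2⟩ := S.H2 η hη
  obtain ⟨r4, hr4, H4⟩ := S.H4 η hη
  obtain ⟨r5, hr5, F1⟩ := S.F1 η hη
  obtain ⟨r6, hr6, F2⟩ := S.F2 η hη
  obtain ⟨r, hr, hr1', hr2', hr4', hr5', hr6'⟩ : ∃ r : ℝ, 0 < r ∧ r ≤ r1 ∧ r ≤ r2 ∧ r ≤ r4 ∧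
      r ≤ r5 ∧ r ≤ r6 := by
    refine ⟨min r1 (min r2 (min r4 (min r5 r6))), ?_, ?_, ?_, ?_, ?_, ?_⟩
    · simp only [lt_min_iff]
      exact ⟨hr1, hr2, hr4, hr5, hr6⟩
    · exact min_le_left _ _
    · exact (min_le_right _ _).trans (min_le_left _ _)
    · exact (min_le_right _ _).trans ((min_le_right _ _).trans (min_le_left _ _))
    · exact (min_le_right _ _).trans ((min_le_right _ _).trans ((min_le_right _ _).trans
        (min_le_left _ _)))
    · exact (min_le_right _ _).trans ((min_le_right _ _).trans ((min_le_right _ _).trans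
        (min_le_right _ _)))
  obtain ⟨ρ, hρd⟩ : ∃ ρ : ℝ, ρ = r / (100 * (S.K * S.L)) := ⟨_, rfl⟩
  have hρ : 0 < ρ := by rw [hρd]; positivity
  have hρr : 100 * (S.K * S.L) * ρ = r := by
    rw [hρd]
    field_simp
  have hρ100 : 100 * ρ ≤ r := by
    rw [← hρr]
    nlinarith
  refine ⟨ρ, hρ, ?_⟩
  intro ι σ p ε y τ hpΛ hg hε hερ hpy hτ hres
  have hKLε : S.K * S.L * ε ≤ r / 100 := by
    have := mul_le_mul_of_nonneg_left hερ.le hKL0.le
    linarith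
  have hKε : S.K * ε ≤ r / 100 := by
    have h1 : S.K * ε ≤ S.K * S.L * ε := by
      apply mul_le_mul_of_nonneg_right _ hε.le
      nlinarith
    linarith
  have hKε0 : 0 < S.K * ε := by positivity
  have hεK : ε ≤ S.K * ε := by nlinarith
  have hLKε : S.K * ε ≤ S.K * S.L * ε := by
    apply mul_le_mul_of_nonneg_right _ hε.le
    nlinarith
  have hηKε : η * (S.K * ε) ≤ ε / 64 := by
    have := mul_le_mul_of_nonneg_right hηK hε.le
    linarith
  have hηKLε : η * (S.K * S.L * ε) = ε / 64 := by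
    have : η * (S.K * S.L * ε) = η * (S.K * S.L) * ε := by ring
    rw [this, hηKL]
    ring
  have hητ : ∀ i, ‖τ i‖ < r := fun i => by
    have := hτ i
    linarith
  -- distances to the points
  have hpw : ∀ i, dist (p (σ i)) (S.Φ (τ i) (S.g (y i))) < 2 * ρ := by
    intro i
    have h1 := dist_triangle_right (p (σ i)) (S.Φ (τ i) (S.g (y i))) (y (σ i))
    have h2 := hpy (σ i)
    have h3 := hres i
    linarith
  -- the decomposition of the residual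
  have step1 : ∀ i, ∃ s ∈ S.Vs (p (σ i)), ∃ u ∈ S.Vu (p (σ i)), ∃ t : W,
      ‖S.e (y (σ i)) - S.e (S.Φ (τ i) (S.g (y i))) - (s + u + S.c (p (σ i)) t)‖ ≤ η * ε ∧
      ‖s‖ ≤ 65 / 64 * (S.K * ε) ∧ ‖u‖ ≤ 65 / 64 * (S.K * ε) ∧ ‖t‖ ≤ 65 / 64 * (S.K * ε) := by
    intro i
    obtain ⟨s, hs, u, hu, t, h⟩ := H1 (p (σ i)) (hpΛ _) (S.Φ (τ i) (S.g (y i))) (y (σ i))
      (by have := hpw i; linarith) (by have := hpy (σ i); linarith)
    have hd := hres i
    have h' : ‖S.e (y (σ i)) - S.e (S.Φ (τ i) (S.g (y i))) - (s + u + S.c (p (σ i)) t)‖ ≤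
        η * ε := h.trans (mul_le_mul_of_nonneg_left hd hη.le)
    have h2 : ‖s + u + S.c (p (σ i)) t‖ ≤ 65 / 64 * ε := by
      have e1 : s + u + S.c (p (σ i)) t = (S.e (y (σ i)) - S.e (S.Φ (τ i) (S.g (y i)))) -
        (S.e (y (σ i)) - S.e (S.Φ (τ i) (S.g (y i))) - (s + u + S.c (p (σ i)) t)) := by abel
      rw [e1]
      refine (norm_sub_le _ _).trans ?_
      have e2 : ‖S.e (y (σ i)) - S.e (S.Φ (τ i) (S.g (y i)))‖ ≤ ε := by
        rw [← S.isom, dist_comm]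
        exact hd
      have e3 : η * ε ≤ 1 / 64 * ε := mul_le_mul_of_nonneg_right hη64 hε.le
      linarith
    obtain ⟨a1, a2, a3⟩ := S.angle (p (σ i)) (hpΛ _) s hs u hu t
    have h3 : S.K * ‖s + u + S.c (p (σ i)) t‖ ≤ 65 / 64 * (S.K * ε) := by
      have := mul_le_mul_of_nonneg_left h2 hK0.le
      linarith
    exact ⟨s, hs, u, hu, t, h', a1.trans h3, a2.trans h3, a3.trans h3⟩
  choose s hs u hu t h1 h1s h1u h1t using step1
  -- the unstable correction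
  have step2 : ∀ i, ∃ b ∈ S.Vu (p i), ‖u i - S.D (p i) b‖ ≤ ε / 60 ∧ ‖b‖ ≤ ε / 15 := by
    intro i
    obtain ⟨u', hu', h2⟩ := H4 (p (σ i)) (hpΛ _) (S.g (p i)) (S.mapΛ _ (hpΛ i))
      (by rw [dist_comm]; have := hg i; linarith) (u i) (hu i)
    obtain ⟨b, hb, hDb⟩ := S.surjU (p i) (hpΛ i) u' hu'
    have hc := S.contrU (p i) (hpΛ i) b hb
    rw [hDb] at hc
    have h3 : η * ‖u i‖ ≤ 65 / 64 * (ε / 64) := by
      have := mul_le_mul_of_nonneg_left (h1u i) hη.le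
      nlinarith
    have h4 : ‖u'‖ ≤ (65 / 64) ^ 2 * (S.K * ε) := by
      have e1 : u' = u i - (u i - u') := by abel
      have e2 : ‖u'‖ ≤ ‖u i‖ + ‖u i - u'‖ := by
        conv_lhs => rw [e1]
        exact norm_sub_le _ _
      have e3 : η * ‖u i‖ ≤ 1 / 64 * ‖u i‖ := mul_le_mul_of_nonneg_right hη64 (norm_nonneg _)
      have e4 := h1u i
      nlinarith
    refine ⟨b, hb, ?_, ?_⟩
    · rw [hDb]
      refine h2.trans (h3.trans ?_)
      nlinarith
    · refine hc.trans ?_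
      have e5 := mul_le_mul_of_nonneg_left h4 hθ
      have e6 : S.θ * ((65 / 64) ^ 2 * (S.K * ε)) = (65 / 64) ^ 2 * (S.K * S.θ) * ε := by ring
      rw [e6] at e5
      have e7 : (65 / 64) ^ 2 * (S.K * S.θ) * ε ≤ (65 / 64) ^ 2 * (1 / 16) * ε := by
        apply mul_le_mul_of_nonneg_right _ hε.le
        apply mul_le_mul_of_nonneg_left hKθ (by norm_num)
      nlinarith
  choose b hb hb1 hb2 using step2
  -- the stable correction
  have hss : ∀ i, s (σ.symm i) ∈ S.Vs (p i) := by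
    intro i
    have := hs (σ.symm i)
    rwa [σ.apply_symm_apply] at this
  have hv : ∀ i, ‖-s (σ.symm i) + b i‖ ≤ 114 / 100 * (S.K * ε) := by
    intro i
    have e1 := norm_add_le (-s (σ.symm i)) (b i)
    rw [norm_neg] at e1
    have e2 := h1s (σ.symm i)
    have e3 := hb2 i
    nlinarith
  have step3 : ∀ i, ∃ y', ‖S.e y' - S.e (y i) - (-s (σ.symm i) + b i)‖ ≤
      η * ‖-s (σ.symm i) + b i‖ ∧
      ‖S.e (S.g y') - S.e (S.g (y i)) - S.D (p i) (-s (σ.symm i) + b i)‖ ≤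
        η * ‖-s (σ.symm i) + b i‖ := by
    intro i
    apply H2 (p i) (hpΛ i) (y i) (by have := hpy i; linarith) _ (neg_mem (hss i)) _ (hb i)
    have := hv i
    linarith
  choose y' h3 h4 using step3
  have hηv : ∀ i, η * ‖-s (σ.symm i) + b i‖ ≤ 114 / 100 * (ε / 64) := by
    intro i
    have := mul_le_mul_of_nonneg_left (hv i) hη.le
    linarith
  have hηv' : ∀ i, η * ‖-s (σ.symm i) + b i‖ ≤ 1 / 64 * ‖-s (σ.symm i) + b i‖ := fun i =>
    mul_le_mul_of_nonneg_right hη64 (norm_nonneg _)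
  -- the image distances
  have hgd : ∀ i, dist (S.g (y i)) (S.g (y' i)) ≤ 116 / 100 * (S.K * S.L * ε) := by
    intro i
    rw [dist_comm, S.isom]
    have e1 : S.e (S.g (y' i)) - S.e (S.g (y i)) =
      (S.e (S.g (y' i)) - S.e (S.g (y i)) - S.D (p i) (-s (σ.symm i) + b i)) +
        S.D (p i) (-s (σ.symm i) + b i) := by abel
    rw [e1]
    refine (norm_add_le _ _).trans ?_
    have e2 := S.boundD (p i) (hpΛ i) _ (neg_mem (hss i)) _ (hb i)
    have e3 := h4 i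
    have e4 := hηv' i
    have e5 := hv i
    have e6 : S.L * ‖-s (σ.symm i) + b i‖ ≤ 114 / 100 * (S.K * S.L * ε) := by
      have := mul_le_mul_of_nonneg_left e5 hL0.le
      linarith
    linarith
  refine ⟨y', fun i => t i + τ i, ?_, ?_, ?_⟩
  · intro i
    rw [dist_comm, S.isom]
    have e1 : S.e (y' i) - S.e (y i) =
      (S.e (y' i) - S.e (y i) - (-s (σ.symm i) + b i)) + (-s (σ.symm i) + b i) := by abel
    rw [e1]
    refine (norm_add_le _ _).trans ?_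
    have e2 := h3 i
    have e4 := hηv' i
    have e5 := hv i
    linarith
  · intro i
    have : t i + τ i - τ i = t i := by abel
    rw [this]
    have := h1t i
    linarith
  · intro i
    -- flow estimates
    have f1 := F1 (τ i) (S.g (y i)) (S.g (y' i)) (by have := hτ i; linarith)
      (by have := hgd i; linarith)
    have f1' : η * dist (S.g (y i)) (S.g (y' i)) ≤ 116 / 100 * (ε / 64) := by
      have := mul_le_mul_of_nonneg_left (hgd i) hη.le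
      linarith
    have hww : dist (S.Φ (τ i) (S.g (y i))) (S.Φ (τ i) (S.g (y' i))) ≤
        120 / 100 * (S.K * S.L * ε) := by
      rw [dist_comm, S.isom]
      have e1 : S.e (S.Φ (τ i) (S.g (y' i))) - S.e (S.Φ (τ i) (S.g (y i))) =
        ((S.e (S.Φ (τ i) (S.g (y' i))) - S.e (S.Φ (τ i) (S.g (y i)))) -
          (S.e (S.g (y' i)) - S.e (S.g (y i)))) + (S.e (S.g (y' i)) - S.e (S.g (y i))) := by abel
      rw [e1]
      refine (norm_add_le _ _).trans ?_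
      rw [← S.isom, dist_comm]
      have e2 := hgd i
      have e3 : η * dist (S.g (y i)) (S.g (y' i)) ≤ 1 / 64 * dist (S.g (y i)) (S.g (y' i)) :=
        mul_le_mul_of_nonneg_right hη64 dist_nonneg
      linarith
    have hxw : dist (p (σ i)) (S.Φ (τ i) (S.g (y' i))) < r := by
      have e1 := dist_triangle (p (σ i)) (S.Φ (τ i) (S.g (y i))) (S.Φ (τ i) (S.g (y' i)))
      have e2 := hpw i
      linarith
    have f2 := F2 (p (σ i)) (S.Φ (τ i) (S.g (y' i))) (t i) (by linarith)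
      (by have := h1t i; linarith)
    have f2' : η * ‖t i‖ ≤ 65 / 64 * (ε / 64) := by
      have := mul_le_mul_of_nonneg_left (h1t i) hη.le
      linarith
    have hDs : ‖S.D (p i) (s (σ.symm i))‖ ≤ 65 / 64 * (ε / 16) := by
      have e1 := S.contrS (p i) (hpΛ i) _ (hss i)
      have e2 := mul_le_mul_of_nonneg_left (h1s (σ.symm i)) hθ
      have e3 : S.θ * (65 / 64 * (S.K * ε)) = 65 / 64 * ((S.K * S.θ) * ε) := by ring
      rw [e3] at e2
      have e4 : (S.K * S.θ) * ε ≤ 1 / 16 * ε := mul_le_mul_of_nonneg_right hKθ hε.le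
      linarith
    rw [dist_comm, S.isom, S.Φadd]
    have g1 := h1 i
    have g2 := h3 (σ i)
    rw [σ.symm_apply_apply] at g2
    have g2' := hηv (σ i)
    rw [σ.symm_apply_apply] at g2'
    have g3 := h4 i
    have g3' := hηv i
    have g6 := hb1 i
    have g7 := hb2 (σ i)
    have hηε : η * ε ≤ ε / 64 := by
      have := mul_le_mul_of_nonneg_right hη64 hε.le
      linarith
    have hDadd : S.D (p i) (-s (σ.symm i) + b i) = -S.D (p i) (s (σ.symm i)) + S.D (p i) (b i) := by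
      rw [map_add, map_neg]
    rw [hDadd] at g3
    have key : S.e (y' (σ i)) - S.e (S.Φ (t i) (S.Φ (τ i) (S.g (y' i)))) =
        (S.e (y (σ i)) - S.e (S.Φ (τ i) (S.g (y i))) - (s i + u i + S.c (p (σ i)) (t i))) +
        (S.e (y' (σ i)) - S.e (y (σ i)) - (-s i + b (σ i))) -
        (S.e (S.g (y' i)) - S.e (S.g (y i)) - (-S.D (p i) (s (σ.symm i)) + S.D (p i) (b i))) -
        ((S.e (S.Φ (τ i) (S.g (y' i))) - S.e (S.Φ (τ i) (S.g (y i)))) -
          (S.e (S.g (y' i)) - S.e (S.g (y i)))) -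
        (S.e (S.Φ (t i) (S.Φ (τ i) (S.g (y' i)))) - S.e (S.Φ (τ i) (S.g (y' i))) -
          S.c (p (σ i)) (t i)) +
        (u i - S.D (p i) (b i)) + b (σ i) + S.D (p i) (s (σ.symm i)) := by
      abel
    rw [key]
    refine (norm_add_le _ _).trans ?_
    refine (add_le_add ((norm_add_le _ _).trans (add_le_add ((norm_add_le _ _).trans
      (add_le_add ((norm_sub_le _ _).trans (add_le_add ((norm_sub_le _ _).trans
        (add_le_add ((norm_sub_le _ _).trans (add_le_add ((norm_add_le _ _).trans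
          (add_le_add g1 g2)) g3)) f1)) f2)) g6)) g7)) hDs).trans ?_
    linarith

theorem shad [CompleteSpace X] [CompleteSpace W] (S : Sys X F W) (h : S.Corr) : S.Shad := by
  obtain ⟨ρ, hρ, H⟩ := h
  intro η hη
  have hK := S.one_le_K
  have hK0 : 0 < S.K := by linarith
  have hmin : 0 < min ρ η := lt_min hρ hη
  obtain ⟨δ, hδdef⟩ : ∃ δ : ℝ, δ = min ρ η / (8 * S.K) := ⟨_, rfl⟩
  have hδ0 : 0 < δ := by rw [hδdef]; positivity
  have hδK : 8 * S.K * δ = min ρ η := by rw [hδdef]; field_simp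
  have hδle : 8 * δ ≤ min ρ η := by
    rw [← hδK]; nlinarith
  have hδρ : δ < ρ := by
    have := min_le_left ρ η
    linarith
  refine ⟨δ, hδ0, ?_⟩
  intro ι σ p hp hd
  -- the invariant
  let P : ℕ → (ι → X) × (ι → W) → Prop := fun k a =>
    (∀ i, dist (p i) (a.1 i) ≤ 4 * S.K * δ * (1 - 1 / 2 ^ k)) ∧
    (∀ i, ‖a.2 i‖ ≤ 4 * S.K * δ * (1 - 1 / 2 ^ k)) ∧
    (∀ i, dist (S.Φ (a.2 i) (S.g (a.1 i))) (a.1 (σ i)) ≤ δ / 2 ^ k)
  have hP0 : P 0 (p, fun _ => 0) := by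
    refine ⟨fun i => ?_, fun i => ?_, fun i => ?_⟩
    · simp
    · simp
    · simp only [S.Φzero, pow_zero, div_one]
      exact (hd i).le
  have hbd : ∀ k : ℕ, 4 * S.K * δ * (1 - 1 / 2 ^ k) < min ρ η := by
    intro k
    have h1 : (0:ℝ) < 1 / 2 ^ k := by positivity
    have h2 : 4 * S.K * δ * (1 - 1 / 2 ^ k) ≤ 4 * S.K * δ * 1 := by
      apply mul_le_mul_of_nonneg_left (by linarith) (by positivity)
    linarith
  have hstep : ∀ k a, P k a → ∃ b, P (k + 1) b ∧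
      (∀ i, dist (a.1 i) (b.1 i) ≤ 2 * S.K * (δ / 2 ^ k)) ∧
      (∀ i, ‖b.2 i - a.2 i‖ ≤ 2 * S.K * (δ / 2 ^ k)) := by
    intro k a ha
    obtain ⟨a1, a2, a3⟩ := ha
    have hek : δ / 2 ^ k ≤ δ := by
      apply div_le_self hδ0.le
      exact one_le_pow₀ (by norm_num)
    obtain ⟨y', τ', b1, b2, b3⟩ := H ι σ p (δ / 2 ^ k) a.1 a.2 hp
      (fun i => (hd i).trans hδρ) (by positivity) (lt_of_le_of_lt hek hδρ)
      (fun i => lt_of_le_of_lt (a1 i) ((hbd k).trans_le (min_le_left _ _)))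
      (fun i => lt_of_le_of_lt (a2 i) ((hbd k).trans_le (min_le_left _ _))) a3
    have hgeo : 4 * S.K * δ * (1 - 1 / 2 ^ k) + 2 * S.K * (δ / 2 ^ k)
        = 4 * S.K * δ * (1 - 1 / 2 ^ (k + 1)) := by
      rw [pow_succ]
      field_simp
      ring
    refine ⟨(y', τ'), ⟨fun i => ?_, fun i => ?_, fun i => ?_⟩, b1, b2⟩
    · have := dist_triangle (p i) (a.1 i) (y' i)
      have h1 := a1 i
      have h2 := b1 i
      simp only
      linarith
    · have h1 := a2 i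
      have h2 := b2 i
      have h3 : ‖τ' i‖ ≤ ‖τ' i - a.2 i‖ + ‖a.2 i‖ := by
        have := norm_add_le (τ' i - a.2 i) (a.2 i)
        rwa [sub_add_cancel] at this
      simp only
      linarith
    · have h1 := b3 i
      have h2 : δ / 2 ^ k / 2 = δ / 2 ^ (k + 1) := by
        rw [pow_succ]; field_simp
      rw [h2] at h1
      exact h1
  choose! nxt hn1 hn2 hn3 using hstep
  let q : ℕ → (ι → X) × (ι → W) := fun k => Nat.rec (p, fun _ => 0) (fun k a => nxt k a) k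
  have hq0 : q 0 = (p, fun _ => 0) := rfl
  have hqs : ∀ k, q (k + 1) = nxt k (q k) := fun k => rfl
  have hqP : ∀ k, P k (q k) := by
    intro k
    induction k with
    | zero => rw [hq0]; exact hP0
    | succ k ih => rw [hqs]; exact hn1 k _ ih
  have hd1 : ∀ i k, dist ((q k).1 i) ((q (k + 1)).1 i) ≤ 4 * S.K * δ / 2 / 2 ^ k := by
    intro i k
    have h1 := hn2 k (q k) (hqP k) i
    rw [hqs]
    have e : 4 * S.K * δ / 2 / 2 ^ k = 2 * S.K * (δ / 2 ^ k) := by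
      field_simp; ring
    rw [e]; exact h1
  have hd2 : ∀ i k, dist ((q k).2 i) ((q (k + 1)).2 i) ≤ 4 * S.K * δ / 2 / 2 ^ k := by
    intro i k
    have h1 := hn3 k (q k) (hqP k) i
    rw [hqs, dist_comm, dist_eq_norm]
    have e : 4 * S.K * δ / 2 / 2 ^ k = 2 * S.K * (δ / 2 ^ k) := by
      field_simp; ring
    rw [e]; exact h1
  have hy : ∀ i, ∃ z, Tendsto (fun k => (q k).1 i) atTop (𝓝 z) := fun i =>
    cauchySeq_tendsto_of_complete (cauchySeq_of_le_geometric_two (hd1 i))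
  have ht : ∀ i, ∃ z, Tendsto (fun k => (q k).2 i) atTop (𝓝 z) := fun i =>
    cauchySeq_tendsto_of_complete (cauchySeq_of_le_geometric_two (hd2 i))
  choose y hy using hy
  choose τ hτ using ht
  have hhalf : 4 * S.K * δ < min ρ η := by linarith
  have hall : ∀ k : ℕ, 4 * S.K * δ * (1 - 1 / 2 ^ k) ≤ 4 * S.K * δ := by
    intro k
    have h1 : (0:ℝ) < 1 / 2 ^ k := by positivity
    have h2 : 4 * S.K * δ * (1 - 1 / 2 ^ k) ≤ 4 * S.K * δ * 1 := by
      apply mul_le_mul_of_nonneg_left (by linarith) (by positivity)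
    linarith
  refine ⟨y, τ, fun i => ?_, fun i => ?_, fun i => ?_⟩
  · have h1 : Tendsto (fun k => dist (p i) ((q k).1 i)) atTop (𝓝 (dist (p i) (y i))) :=
      tendsto_const_nhds.dist (hy i)
    have h2 : dist (p i) (y i) ≤ 4 * S.K * δ :=
      le_of_tendsto h1 (Eventually.of_forall fun k => ((hqP k).1 i).trans (hall k))
    exact lt_of_le_of_lt h2 (hhalf.trans_le (min_le_right _ _))
  · have h1 : Tendsto (fun k => ‖(q k).2 i‖) atTop (𝓝 ‖τ i‖) := (hτ i).norm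
    have h2 : ‖τ i‖ ≤ 4 * S.K * δ :=
      le_of_tendsto h1 (Eventually.of_forall fun k => ((hqP k).2.1 i).trans (hall k))
    exact lt_of_le_of_lt h2 (hhalf.trans_le (min_le_right _ _))
  · have hc : Tendsto (fun k => S.Φ ((q k).2 i) (S.g ((q k).1 i))) atTop
        (𝓝 (S.Φ (τ i) (S.g (y i)))) := by
      have h1 : Tendsto (fun k => (((q k).2 i, S.g ((q k).1 i)) : W × X)) atTop
          (𝓝 (τ i, S.g (y i))) :=
        (hτ i).prodMk_nhds ((S.gcont.tendsto _).comp (hy i))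
      exact (S.Φcont.tendsto (τ i, S.g (y i))).comp h1
    have h1 : Tendsto (fun k => dist (S.Φ ((q k).2 i) (S.g ((q k).1 i))) ((q k).1 (σ i))) atTop
        (𝓝 (dist (S.Φ (τ i) (S.g (y i))) (y (σ i)))) := hc.dist (hy (σ i))
    have h2 : Tendsto (fun k : ℕ => δ / 2 ^ k) atTop (𝓝 0) := by
      have : Tendsto (fun k : ℕ => δ * (1 / 2) ^ k) atTop (𝓝 (δ * 0)) :=
        (tendsto_pow_atTop_nhds_zero_of_lt_one (by norm_num) (by norm_num)).const_mul δ
      rw [mul_zero] at this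
      refine this.congr fun k => ?_
      rw [one_div, inv_pow]; rfl
    have h3 : dist (S.Φ (τ i) (S.g (y i))) (y (σ i)) ≤ 0 :=
      le_of_tendsto_of_tendsto' h1 h2 fun k => (hqP k).2.2 i
    exact dist_le_zero.mp h3

end Sys

end Q263.HS
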