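import Mathlib
import Pool.Agent.Q263.HR.Geo
import Pool.Agent.Q263.HS.Abs

/-!
# Project HS of helper263 (rows MP_4a0782_an, MP_814647_an): geometric part, lemma jobs

`M` is a closed manifold, embedded by `e : M → F` in a normed space with the induced metric
(`Q263.HR.Emb`), `Φ : W → M → M` an action of the vector group `W`, `f : M ≃ₜ M` a diffeomorphism
commuting with `Φ`.  `dm E e x v` is the derivative of `e` at `x` applied to `v`, `dg E G x v` the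
derivative of a self map (`Pool.Agent.H721R2`).  Compare project HR
(`Pool/Agent/Q263/HR/Geo.lean`), where `W = ℝ`.
-/

set_option autoImplicit false

open scoped Manifold ContDiff Topology
open Set Filter Pool.Agent.H721R2 Q263.HR

namespace Q263.HS

universe u v w

section defs

variable (E : Type u) [NormedAddCommGroup E] [NormedSpace ℝ E]
  {M : Type v} [TopologicalSpace M] [ChartedSpace E M]
  {W : Type} [NormedAddCommGroup W] [NormedSpace ℝ W]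

/-- The derivative at `0` of the orbit map `t ↦ Φ t x` of the point `x = Φ 0 x`. -/
noncomputable def orb (Φ : W → M → M) (x : M) : W →L[ℝ] E :=
  mfderiv 𝓘(ℝ, W) 𝓘(ℝ, E) (fun t : W => Φ t x) 0

/-- `Φ` is an action of the vector group `W` on `M`, jointly of class `C^1`. -/
structure IsAct (Φ : W → M → M) : Prop where
  zero : ∀ x, Φ 0 x = x
  add : ∀ s t x, Φ (s + t) x = Φ s (Φ t x)
  smooth : ContMDiff (𝓘(ℝ, W).prod 𝓘(ℝ, E)) 𝓘(ℝ, E) 1 (fun q : W × M => Φ q.1 q.2)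

end defs

section defs2

variable {E : Type u} [NormedAddCommGroup E] [NormedSpace ℝ E]
  {M : Type v} [MetricSpace M] [ChartedSpace E M]
  {F : Type w} [NormedAddCommGroup F] [NormedSpace ℝ F]
  {W : Type} [NormedAddCommGroup W] [NormedSpace ℝ W]

/-- uniform estimates for the action `Φ`, in the ambient space -/
structure ActCont (E : Type u) [NormedAddCommGroup E] [NormedSpace ℝ E] [ChartedSpace E M]
    (e : M → F) (Φ : W → M → M) (B : ℝ) : Prop where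
  pos : 0 < B
  bd : ∀ (x : M) (t : W), ‖dm E e x (orb E Φ x t)‖ ≤ B * ‖t‖
  F1 : ∀ η > 0, ∃ r > 0, ∀ (τ : W) (y y' : M), ‖τ‖ < r → dist y y' < r →
    ‖(e (Φ τ y') - e (Φ τ y)) - (e y' - e y)‖ ≤ η * dist y y'
  F2 : ∀ η > 0, ∃ r > 0, ∀ (x w : M) (t : W), dist x w < r → ‖t‖ < r →
    ‖e (Φ t w) - e w - dm E e x (orb E Φ x t)‖ ≤ η * ‖t‖

/-- `Λ` is a hyperbolic set of `f` transversally to the orbits of `Φ` -/
structure TH (e : M → F) (f : M ≃ₜ M) (Φ : W → M → M) (Λ : Set M)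
    (Es Eu : M → Submodule ℝ E) (C a : ℝ) : Prop where
  smooth : ContMDiff 𝓘(ℝ, E) 𝓘(ℝ, E) 1 f
  smooth' : ContMDiff 𝓘(ℝ, E) 𝓘(ℝ, E) 1 f.symm
  eqv : ∀ (n : ℕ) (x : M) (t : W), dg E (f^[n]) x (orb E Φ x t) = orb E Φ (f^[n] x) t
  eqv' : ∀ (n : ℕ) (x : M) (t : W), dg E (f.symm^[n]) x (orb E Φ x t) = orb E Φ (f.symm^[n] x) t
  inv : ∀ x ∈ Λ, ∀ n : ℕ, f^[n] x ∈ Λ
  inv' : ∀ x ∈ Λ, ∀ n : ℕ, f.symm^[n] x ∈ Λ
  decomp : ∀ x ∈ Λ, ∀ v, ∃ s ∈ Es x, ∃ u ∈ Eu x, ∃ t : W, s + u + orb E Φ x t = v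
  low : ∀ x ∈ Λ, ∀ t : W, ‖t‖ ≤ C * ‖dm E e x (orb E Φ x t)‖
  up : ∀ (x : M) (t : W), ‖dm E e x (orb E Φ x t)‖ ≤ C * ‖t‖
  C_pos : 1 ≤ C
  a_pos : 0 < a
  a_lt : a < 1
  mapS : ∀ (n : ℕ), ∀ x ∈ Λ, ∀ v ∈ Es x, dg E (f^[n]) x v ∈ Es (f^[n] x)
  mapU : ∀ (n : ℕ), ∀ x ∈ Λ, ∀ v ∈ Eu x, dg E (f^[n]) x v ∈ Eu (f^[n] x)
  mapS' : ∀ (n : ℕ), ∀ x ∈ Λ, ∀ v ∈ Es x, dg E (f.symm^[n]) x v ∈ Es (f.symm^[n] x)
  mapU' : ∀ (n : ℕ), ∀ x ∈ Λ, ∀ v ∈ Eu x, dg E (f.symm^[n]) x v ∈ Eu (f.symm^[n] x)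
  hS : ∀ (n : ℕ), ∀ x ∈ Λ, ∀ v ∈ Es x,
    ‖dm E e (f^[n] x) (dg E (f^[n]) x v)‖ ≤ C * a ^ n * ‖dm E e x v‖
  hU' : ∀ (n : ℕ), ∀ x ∈ Λ, ∀ v ∈ Eu x,
    ‖dm E e (f.symm^[n] x) (dg E (f.symm^[n]) x v)‖ ≤ C * a ^ n * ‖dm E e x v‖

theorem TH.symm {e : M → F} {f : M ≃ₜ M} {Φ : W → M → M} {Λ : Set M}
    {Es Eu : M → Submodule ℝ E} {C a : ℝ} (h : TH e f Φ Λ Es Eu C a) :
    TH e f.symm Φ Λ Eu Es C a where
  smooth := h.smooth'
  smooth' := h.smooth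
  eqv := h.eqv'
  eqv' := h.eqv
  inv := h.inv'
  inv' := h.inv
  decomp := fun x hx v => by
    obtain ⟨s, hs, u, hu, t, hsu⟩ := h.decomp x hx v
    exact ⟨u, hu, s, hs, t, by rw [add_comm u s]; exact hsu⟩
  low := h.low
  up := h.up
  C_pos := h.C_pos
  a_pos := h.a_pos
  a_lt := h.a_lt
  mapS := h.mapU'
  mapU := h.mapS'
  mapS' := h.mapU
  mapU' := h.mapS
  hS := h.hU'
  hU' := h.hS

end defs2

/-- **JOB HS-FL**: `theorem fl : S_FL.{u, v, w}` (namespace `Q263.HS`).  Adapt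
`Pool.Agent.Q285.HR.Fl` (helper285: theorem `Q263.HR.fl`, the case `W = ℝ`, `Φ` a smooth flow; there
`F1`, `F2` with `t • dm E e x (R x)` for `dm E e x (orb E Φ x t)`).

PROOF.  Fix `x₀`, `φ = extChartAt 𝓘(ℝ, E) x₀`, `p₀ = φ x₀`.
(0) There are `C > 0` and `U ∈ 𝓝 x₀`, `U ⊆ φ.source`, with `‖φ y - φ x‖ ≤ C ‖e y - e x‖` for
`x, y ∈ U` (`Q263.HR.fl_low`, depends only on `e`).
(1) `Ψ (t, z) = e (Φ t (φ.symm z))` is `C^1` at `(0, p₀)` (composition of `e`, `hΦ.smooth` and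
`φ.symm`; `IsAct.smooth`), so it has a strict derivative `A : W × E →L[ℝ] F` at `(0, p₀)`
(`ContDiffAt.hasStrictFDerivAt`): for `η' > 0` and `(t, z), (t', z')` near `(0, p₀)`,
`‖Ψ(t',z') - Ψ(t,z) - A (t'-t, z'-z)‖ ≤ η' ‖(t'-t, z'-z)‖`.
(2) F1 locally: subtract the estimates for `(τ, z'), (τ, z)` and `(0, z'), (0, z)`, where
`z = φ y`, `z' = φ y'` and `Φ 0 = id`: the norm is `≤ 2 η' ‖φ y' - φ y‖ ≤ 2 η' C dist y y'`.
Globally: `Q263.HR.fl_glob` (or its proof with `|τ|` replaced by `‖τ‖`).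
(3) F2 locally: `(t, φ w), (0, φ w)`: `‖e (Φ t w) - e w - A (t, 0)‖ ≤ η' ‖t‖`; and for `x` near `x₀`
the map `t ↦ e (Φ t x) = Ψ (t, φ x)` has the derivative `dm E e x ∘ orb E Φ x` at `0` (chain rule,
`Φ 0 x = x`), so by the strict differentiability `‖dm E e x (orb E Φ x t) - A (t, 0)‖ ≤ η' ‖t‖` for
all `t`.  So F2 holds locally with `2 η'`; globalise as in (2).
(4) bd: by F2 with `η = 1` at `x, x'` with `w = x` : `‖dm E e x (orb E Φ x t) - dm E e x' (orb E Φ x' t)‖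
≤ 2 ‖t‖` for `‖t‖ < r`, so for all `t`, if `dist x x' < r`; cover `M` by finitely many balls of radius
`r` (or `exists_uniform_const` of `Pool.Agent.H721R2.Embed`). -/
def S_FL : Prop := ∀ (E : Type u) [NormedAddCommGroup E] [NormedSpace ℝ E] [FiniteDimensional ℝ E]
  (M : Type v) [MetricSpace M] [CompactSpace M] [ChartedSpace E M] [IsManifold 𝓘(ℝ, E) ∞ M]
  (F : Type w) [NormedAddCommGroup F] [NormedSpace ℝ F] (e : M → F), Emb E e →
  ∀ (W : Type) [NormedAddCommGroup W] [NormedSpace ℝ W] (Φ : W → M → M), IsAct E Φ →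
  ∃ B, ActCont E e Φ B

/-- **JOB HS-ANG**: `theorem ang : S_ANG.{u, v, w}` (namespace `Q263.HS`).  Adapt
`Pool.Agent.H721R2.EAnosov.angle` (Embed.lean) and `Pool.Agent.Q177.HR.Ang`.

PROOF.  Choose `n` with `q := C a^n ≤ 1/(16 C^2)`.  Let `Bn`, `B'n` be the constants of
`Pool.Agent.H721R2.global_bound` for `f^[n]` and `f.symm^[n]`:
`‖dm e (f^n x) (dg f^n x v)‖ ≤ Bn ‖dm e x v‖` etc.  Let `x ∈ Λ`, `v = s + u + ρ`, `ρ = orb E Φ x t`,
write `|v| = ‖dm E e x v‖` (and the same at the points `f^{±n} x`).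
* `|u| ≤ q |D^n u|` (`hU'` at `f^n x` with the vector `dg f^n x u`, `mapU`, `dg_inv`), and
  `D^n u = D^n v - D^n s - D^n ρ`, `|D^n s| ≤ q |s|`, `|D^n ρ| ≤ C ‖t‖ ≤ C^2 |ρ|` (`eqv`, `up`, `low`).
  So `|u| ≤ q (Bn |v| + q |s| + C^2 |ρ|)`.
* In the same way with `f.symm`: `|s| ≤ q (B'n |v| + q |u| + C^2 |ρ|)`.
* `|ρ| ≤ |v| + |s| + |u|`.
Adding: `|s| + |u| ≤ q (Bn + B'n) |v| + q^2 (|s| + |u|) + 2 q C^2 (|v| + |s| + |u|)`, and
`q^2 + 2 q C^2 ≤ 1/256 + 1/8 ≤ 1/4`, so `|s| + |u| ≤ (4/3) (q (Bn + B'n) + 1/8) |v|`.  Finally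
`‖t‖ ≤ C |ρ| ≤ C (|v| + |s| + |u|)`. -/
def S_ANG : Prop := ∀ (E : Type u) [NormedAddCommGroup E] [NormedSpace ℝ E] [FiniteDimensional ℝ E]
  (M : Type v) [MetricSpace M] [CompactSpace M] [ChartedSpace E M] [IsManifold 𝓘(ℝ, E) ∞ M]
  (F : Type w) [NormedAddCommGroup F] [NormedSpace ℝ F] (e : M → F), Emb E e →
  ∀ (W : Type) [NormedAddCommGroup W] [NormedSpace ℝ W] (Φ : W → M → M)
    (f : M ≃ₜ M) (Λ : Set M) (Es Eu : M → Submodule ℝ E) (C a : ℝ),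
  TH e f Φ Λ Es Eu C a → ∃ K ≥ 1, ∀ x ∈ Λ, ∀ s ∈ Es x, ∀ u ∈ Eu x, ∀ t : W,
    ‖dm E e x s‖ ≤ K * ‖dm E e x (s + u + orb E Φ x t)‖ ∧
    ‖dm E e x u‖ ≤ K * ‖dm E e x (s + u + orb E Φ x t)‖ ∧
    ‖t‖ ≤ K * ‖dm E e x (s + u + orb E Φ x t)‖

/-- **JOB HS-CONT**: `theorem cont : S_CONT.{u, v, w}` (namespace `Q263.HS`).  Adapt
`Pool.Agent.Q154.HR.Cont` or `Pool.Agent.H721R2.EAnosov.contS` (Embed.lean).

PROOF.  Choose `n` with `q := C a^n` so small that `2 K (q + C) q ≤ η/2`... more exactly: choose first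
`n` with `K q (q + C) ≤ η/4`, then `η' > 0` with `η' + K η' (q + C) ≤ η/4`.  Let `r` be a uniform radius
of the third part of `Pool.Agent.H721R2.local_all` with `h = e ∘ f^[n]` for `η'` (exactly as in
`contS`; or the third statement of `Q263.HR.S_TR`, proved as `Q263.HR.tr` in `Pool.Agent.Q150.HR.TR`,
with `G = f^[n]`).  Let `x, y ∈ Λ`, `dist x y < r`, `s ∈ Es x`, `N = ‖dm e x s‖`.  Get `w` with
`‖dm e x s - dm e y w‖ ≤ η' N` and `‖dm e (f^n x) (dg f^n x s) - dm e (f^n y) (dg f^n y w)‖ ≤ η' N`.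
`decomp` at `y`: `w = s' + u' + orb E Φ y t`.  By `hS`, `‖dm e (f^n y) (dg f^n y w)‖ ≤ (q + η') N`.
Since `dg f^n y w = dg f^n y s' + dg f^n y u' + orb E Φ (f^n y) t` (`eqv`, `mapS`, `mapU`), the angle
hypothesis at `f^n y ∈ Λ` gives `‖dm e (f^n y) (dg f^n y u')‖ ≤ K (q + η') N` and
`‖t‖ ≤ K (q + η') N`.  So `‖dm e y u'‖ ≤ q K (q + η') N` (`hU'` at `f^n y`) and
`‖dm e y (orb E Φ y t)‖ ≤ C K (q + η') N` (`up`).  Hence
`‖dm e x s - dm e y s'‖ ≤ η' N + K (q + C) (q + η') N`.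

WARNING: `K C q` has to be small: choose `n` with `K (q + C) q ≤ η/4` (possible, `q → 0`), then `η'`
with `η' + K (q + C) η' ≤ η/4`. -/
def S_CONT : Prop := ∀ (E : Type u) [NormedAddCommGroup E] [NormedSpace ℝ E] [FiniteDimensional ℝ E]
  (M : Type v) [MetricSpace M] [CompactSpace M] [ChartedSpace E M] [IsManifold 𝓘(ℝ, E) ∞ M]
  (F : Type w) [NormedAddCommGroup F] [NormedSpace ℝ F] (e : M → F), Emb E e →
  ∀ (W : Type) [NormedAddCommGroup W] [NormedSpace ℝ W] (Φ : W → M → M)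
    (f : M ≃ₜ M) (Λ : Set M) (Es Eu : M → Submodule ℝ E) (C a : ℝ),
  TH e f Φ Λ Es Eu C a → ∀ K : ℝ, 1 ≤ K → (∀ x ∈ Λ, ∀ s ∈ Es x, ∀ u ∈ Eu x, ∀ t : W,
    ‖dm E e x s‖ ≤ K * ‖dm E e x (s + u + orb E Φ x t)‖ ∧
    ‖dm E e x u‖ ≤ K * ‖dm E e x (s + u + orb E Φ x t)‖ ∧
    ‖t‖ ≤ K * ‖dm E e x (s + u + orb E Φ x t)‖) →
  ∀ η > 0, ∃ r > 0, ∀ x ∈ Λ, ∀ y ∈ Λ, dist x y < r → ∀ s ∈ Es x, ∃ s' ∈ Es y,
    ‖dm E e x s - dm E e y s'‖ ≤ η * ‖dm E e x s‖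

/-- **JOB HS-LOW**: `theorem low : S_LOW.{u, v, w}` (namespace `Q263.HS`).

PROOF.  Put `h x t = ‖dm E e x (orb E Φ x t)‖`.  By `F2` at `x, x'` (with `w = x`, or `w` = any point
near both): for `η > 0` there is `r > 0` with `‖dm e x (orb x t) - dm e x' (orb x' t)‖ ≤ 2 η ‖t‖` for
`dist x x' < r` and `‖t‖ < r`, hence (homogeneity) for all `t`.  So `h` is continuous on
`M × W` (also `|h x t - h x t'| ≤ B ‖t - t'‖` by `bd`).  If `W` is trivial (`Subsingleton W`) take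
`C = 1`.  Otherwise `Λ × sphere (0 : W) 1` is compact (`W` is finite dimensional: `ProperSpace`), `h` is
positive on it (`free`, injectivity of `dm E e x`: `Emb.inj`), so `h ≥ c > 0` there (the minimum; if the
set is empty take `c = 1`), and `‖t‖ ≤ c⁻¹ h x t` by homogeneity. -/
def S_LOW : Prop := ∀ (E : Type u) [NormedAddCommGroup E] [NormedSpace ℝ E] [FiniteDimensional ℝ E]
  (M : Type v) [MetricSpace M] [CompactSpace M] [ChartedSpace E M] [IsManifold 𝓘(ℝ, E) ∞ M]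
  (F : Type w) [NormedAddCommGroup F] [NormedSpace ℝ F] (e : M → F), Emb E e →
  ∀ (W : Type) [NormedAddCommGroup W] [NormedSpace ℝ W] [FiniteDimensional ℝ W] (Φ : W → M → M)
    (B : ℝ), ActCont E e Φ B → ∀ Λ : Set M, IsClosed Λ →
  (∀ x ∈ Λ, ∀ t : W, orb E Φ x t = 0 → t = 0) →
  ∃ C : ℝ, 0 < C ∧ ∀ x ∈ Λ, ∀ t : W, ‖t‖ ≤ C * ‖dm E e x (orb E Φ x t)‖

/-- **JOB HS-CRR**: `theorem crr : S_CRR.{v}` (namespace `Q263.HS`): the chain recurrent points are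
chain recurrent inside the set of the chain recurrent points.  (`ChainRec` of `Q263.HR.Geo`; a set `V`
there may be replaced by `{(x, y) | dist x y < δ}`, see the proofs in `Pool/Agent/Q263/HR/Chain.lean`.)

PROOF.  Fix `z` with `ChainRec g univ z`.  For `ε > 0` let `Y ε` be the set of the points `x` such that
there is a closed `ε`-chain through `z` which contains `x`: `n > 0`, `q 0 = q n = z`,
`dist (g (q k)) (q (k+1)) < ε` for `k < n`, and `x = q i` for some `i ≤ n`.  `Y` is decreasing in `ε`.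
(1) If `x` is in the closure of `Y ε` for all `ε > 0`, then `x` is chain recurrent, even: for every
`ε > 0` there is a closed `ε`-chain through `z` containing `x`.  Namely take `ε'` small
(`ε' < ε/2`, and `dist a b < ε' → dist (g a) (g b) < ε/2` by uniform continuity), a point `x' ∈ Y ε'`
with `dist x x' < ε'` on the closed `ε'`-chain `q`, `x' = q i`, and replace `q i` by `x`.  If `i = 0` or
`i = n` (so `x' = z`) use the concatenation of two copies of the chain, and replace the middle `z` only.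
Rotating the closed chain, `x` is chain recurrent.
(2) Let `K = ⋂_{ε > 0} closure (Y ε)`; by (1) all points of `K` are chain recurrent, and `z ∈ K`.
By compactness for every `δ' > 0` there is `ε ∈ (0, δ')` such that every point of `Y ε` is within `δ'` of
some point of `K` (otherwise take `ε = 1/k`, `x_k ∈ Y (1/k)` with distance `≥ δ'` from `K` and a limit
point `x` of `x_k`; `x ∈ closure (Y ε)` for all `ε`).
(3) Given `V` choose `δ` with `dist a b < δ → (a, b) ∈ V`, `δ' ≤ δ/3` with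
`dist a b < δ' → dist (g a) (g b) < δ/3`, `ε` as in (2), and a closed `ε`-chain `q` through `z`
(`z` is chain recurrent).  Replace `q k`, `0 < k < n`, by a point `p k ∈ K` within `δ'`, `p 0 = p n = z`,
and `p k = z` for `k > n`. -/
def S_CRR : Prop := ∀ (M : Type v) [MetricSpace M] [CompactSpace M] (g : M → M), Continuous g →
  ∀ z : M, ChainRec g univ z → ChainRec g {x | ChainRec g univ x} z

end Q263.HS
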