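import Mathlib
import Pool.Agent.H721R2.AnosovDef
import Pool.Agent.Q263.HS.Geo
import Pool.Agent.H718R2.G0
import Pool.Agent.TH80.OMS.Defs
import Pool.Agent.H728R2.OS.Defs

/-!
# Diffeomorphisms commuting with an action of a vector group: definitions

`M` is a closed manifold modelled on `E`, `W` a finite dimensional real vector space acting on `M`.
`IsTangentNorm Nm`: `Nm` is a continuous norm on the tangent bundle
(`Pool/Agent/H721R2/AnosovDef.lean`).  `Omega f`, `Per f`, `ChainRec f`: nonwandering, periodic and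
chain recurrent points (`Pool/Agent/H728R2/OS/Defs.lean`).
-/

set_option autoImplicit false

open scoped Manifold ContDiff Topology
open Set Filter Pool.Agent.H721R2 Pool.Agent.H728R2.OS

namespace Q263.HS

universe u v

section general

variable (E : Type u) [NormedAddCommGroup E] [NormedSpace ℝ E]
  {M : Type v} [TopologicalSpace M] [ChartedSpace E M]
  {W : Type} [NormedAddCommGroup W] [NormedSpace ℝ W]

/-- The velocity at `x` of the one-parameter group of `t ∈ W`: the derivative of `s ↦ Φ s x` at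
`s = 0` in the direction `t`. -/
noncomputable def vel (Φ : W → M → M) (x : M) (t : W) : TangentSpace 𝓘(ℝ, E) x := orb E Φ x t

/-- `Φ` is an action of the vector group `W` on `M`, of class `C^r` jointly. -/
structure IsAction (r : ℕ∞) (Φ : W → M → M) : Prop where
  zero : ∀ x, Φ 0 x = x
  add : ∀ s t x, Φ (s + t) x = Φ s (Φ t x)
  smooth : ContMDiff (𝓘(ℝ, W).prod 𝓘(ℝ, E)) 𝓘(ℝ, E) r (fun q : W × M => Φ q.1 q.2)

variable {E}

/-- The field `Z` of tangent subspaces is `DG`-invariant at the points of `Λ`. -/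
def InvOn (G : M → M) (Λ : Set M) (Z : ∀ x : M, Submodule ℝ (TangentSpace 𝓘(ℝ, E) x)) : Prop :=
  ∀ x ∈ Λ, (Z x).map (mfderiv 𝓘(ℝ, E) 𝓘(ℝ, E) G x).toLinearMap = Z (G x)

/-- `Nm (DG^k v) ≤ C a^k Nm v` for all `k ≥ 0` and `v ∈ Z x`, `x ∈ Λ`. -/
def RateOn (G : M → M) (Λ : Set M) (Nm : TangentBundle 𝓘(ℝ, E) M → ℝ)
    (Z : ∀ x : M, Submodule ℝ (TangentSpace 𝓘(ℝ, E) x)) (C a : ℝ) : Prop :=
  ∀ (k : ℕ), ∀ x ∈ Λ, ∀ v ∈ Z x,
    Nm (tangentMap 𝓘(ℝ, E) 𝓘(ℝ, E) (G^[k]) ⟨x, v⟩) ≤ C * a ^ k * Nm ⟨x, v⟩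

/-- The subspaces `Z x`, `x ∈ Λ`, depend continuously on the point: their union is closed in the
tangent bundle. -/
def ContOn [IsManifold 𝓘(ℝ, E) 1 M] (Λ : Set M)
    (Z : ∀ x : M, Submodule ℝ (TangentSpace 𝓘(ℝ, E) x)) : Prop :=
  IsClosed {p : TangentBundle 𝓘(ℝ, E) M | p.1 ∈ Λ ∧ p.2 ∈ Z p.1}

/-- `Λ` is closed, `f(Λ) = Λ`, and `Es`, `Eu` are `Df`-invariant fields of tangent subspaces on `Λ` with
`‖Df^k v‖ ≤ C a^k ‖v‖` on `Es` and `‖Df^{-k} v‖ ≤ C a^k ‖v‖` on `Eu` for `k ≥ 0`, where `a < 1` and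
`‖·‖ = Nm` is a continuous norm on the tangent bundle. -/
structure Rates [IsManifold 𝓘(ℝ, E) 1 M] (f : M ≃ₜ M) (Λ : Set M)
    (Nm : TangentBundle 𝓘(ℝ, E) M → ℝ) (Es Eu : ∀ x : M, Submodule ℝ (TangentSpace 𝓘(ℝ, E) x))
    (C a : ℝ) : Prop where
  norm : IsTangentNorm Nm
  closed : IsClosed Λ
  inv : f '' Λ = Λ
  a_pos : 0 < a
  a_lt : a < 1
  map_s : InvOn f Λ Es
  map_u : InvOn f Λ Eu
  rate_s : RateOn f Λ Nm Es C a
  rate_u : RateOn f.symm Λ Nm Eu C a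

/-- `Λ` is a hyperbolic set of `f`: the tangent spaces at the points of `Λ` are direct sums of `Es` and
`Eu`, which depend continuously on the point. -/
structure IsHypOn [IsManifold 𝓘(ℝ, E) 1 M] (f : M ≃ₜ M) (Λ : Set M)
    (Nm : TangentBundle 𝓘(ℝ, E) M → ℝ) (Es Eu : ∀ x : M, Submodule ℝ (TangentSpace 𝓘(ℝ, E) x))
    (C a : ℝ) : Prop extends Rates f Λ Nm Es Eu C a where
  compl : ∀ x ∈ Λ, IsCompl (Es x) (Eu x)
  cont_s : ContOn Λ Es
  cont_u : ContOn Λ Eu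

/-- `Λ` is hyperbolic for `f` transversally to the orbits of the action `Φ` of `W`: the action is
locally free at the points of `Λ`, and the tangent spaces at the points of `Λ` are sums of `Es`, `Eu`
and the tangent space of the orbit. -/
structure IsTransHypOn [IsManifold 𝓘(ℝ, E) 1 M] (f : M ≃ₜ M) (Φ : W → M → M) (Λ : Set M)
    (Nm : TangentBundle 𝓘(ℝ, E) M → ℝ) (Es Eu : ∀ x : M, Submodule ℝ (TangentSpace 𝓘(ℝ, E) x))
    (C a : ℝ) : Prop extends Rates f Λ Nm Es Eu C a where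
  free : ∀ x ∈ Λ, ∀ t : W, vel E Φ x t = 0 → t = 0
  sum : ∀ x ∈ Λ, ∀ v : TangentSpace 𝓘(ℝ, E) x, ∃ s ∈ Es x, ∃ u ∈ Eu x, ∃ t : W,
    s + u + vel E Φ x t = v

variable (E)

/-- `Λ` is a hyperbolic set of `f`. -/
def IsHyp [IsManifold 𝓘(ℝ, E) 1 M] (f : M ≃ₜ M) (Λ : Set M) : Prop :=
  ∃ (Nm : TangentBundle 𝓘(ℝ, E) M → ℝ) (Es Eu : ∀ x : M, Submodule ℝ (TangentSpace 𝓘(ℝ, E) x))
    (C a : ℝ), IsHypOn f Λ Nm Es Eu C a

/-- `Λ` is hyperbolic for `f` transversally to the orbits of `Φ`. -/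
def IsTransHyp [IsManifold 𝓘(ℝ, E) 1 M] (f : M ≃ₜ M) (Φ : W → M → M) (Λ : Set M) : Prop :=
  ∃ (Nm : TangentBundle 𝓘(ℝ, E) M → ℝ) (Es Eu : ∀ x : M, Submodule ℝ (TangentSpace 𝓘(ℝ, E) x))
    (C a : ℝ), IsTransHypOn f Φ Λ Nm Es Eu C a

/-- `Λ` is hyperbolic for `f` transversally to the orbits of some `C^r` action on `M` of a finite
dimensional vector group `W ≠ 0` which commutes with `f` and is locally free on `Λ`. -/
def IsCentreHyp [IsManifold 𝓘(ℝ, E) 1 M] (r : ℕ∞) (f : M ≃ₜ M) (Λ : Set M) : Prop :=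
  ∃ (W : Type) (_ : NormedAddCommGroup W) (_ : NormedSpace ℝ W) (_ : FiniteDimensional ℝ W)
    (_ : Nontrivial W) (Φ : W → M → M), IsAction E r Φ ∧ (∀ t x, f (Φ t x) = Φ t (f x)) ∧
    IsTransHyp E f Φ Λ

end general

section metric

variable (E : Type u) [NormedAddCommGroup E] [NormedSpace ℝ E]
  {M : Type v} [MetricSpace M] [ChartedSpace E M] [IsManifold 𝓘(ℝ, E) 1 M]

/-- Axiom A: `Ω(f)` is hyperbolic and the periodic points are dense in it. -/
def AxiomA (f : M ≃ₜ M) : Prop := IsHyp E f (Omega f) ∧ Omega f ⊆ closure (Per f)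

/-- The chain recurrent set of `f` is contained in the union of a hyperbolic set `Λ₀` and a family `S`
of sets each of which is hyperbolic transversally to the orbits of a commuting action. -/
def ChainCovered (r : ℕ∞) (f : M ≃ₜ M) : Prop :=
  ∃ (Λ₀ : Set M) (S : Set (Set M)), IsHyp E f Λ₀ ∧ (∀ Λ ∈ S, IsCentreHyp E r f Λ) ∧
    ChainRec f ⊆ Λ₀ ∪ ⋃₀ S

end metric

/-- `F` is structurally stable in `Diff^r(N)`: all `G` in a neighbourhood of `F` are topologically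
conjugate to `F`. -/
def StructStable (n : ℕ) (N : Type u) [TopologicalSpace N]
    [ChartedSpace (Pool.Agent.H718R2.G.V n) N] (r : ℕ∞) (F : Pool.Agent.H718R2.G.DiffM n N r) :
    Prop :=
  ∃ U : Set (Pool.Agent.H718R2.G.DiffM n N r), IsOpen[Pool.Agent.H718R2.G.strongTop n N r] U ∧
    F ∈ U ∧ ∀ G ∈ U, ∃ h : N ≃ₜ N, ∀ x, h (F x) = G (h x)

end Q263.HS
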