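import Mathlib
import Pool.Agent.H721R2.Riem
import Pool.Agent.Q263.HS.Def

/-! From intrinsic to ambient rates. -/

set_option autoImplicit false
set_option linter.unusedSectionVars false

open scoped Manifold ContDiff Topology
open Set Filter Pool.Agent.H721R2 Q263.HR

namespace Q263.HS

universe u v w

section orbit

variable {E : Type u} [NormedAddCommGroup E] [NormedSpace ℝ E]
  {M : Type v} [TopologicalSpace M] [ChartedSpace E M]
  {W : Type} [NormedAddCommGroup W] [NormedSpace ℝ W]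

theorem IsAct.smooth_orb {Φ : W → M → M} (h : IsAct E Φ) (x : M) :
    ContMDiff 𝓘(ℝ, W) 𝓘(ℝ, E) 1 (fun t : W => Φ t x) :=
  h.smooth.comp (contMDiff_id.prodMk contMDiff_const)

theorem IsAct.smooth_t {Φ : W → M → M} (h : IsAct E Φ) (t : W) :
    ContMDiff 𝓘(ℝ, E) 𝓘(ℝ, E) 1 (Φ t) :=
  h.smooth.comp (contMDiff_const.prodMk contMDiff_id)

theorem IsAct.continuous {Φ : W → M → M} (h : IsAct E Φ) :
    Continuous fun z : W × M => Φ z.1 z.2 := h.smooth.continuous

theorem orb_map {Φ : W → M → M} (h : IsAct E Φ) (G : M → M)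
    (hG : ContMDiff 𝓘(ℝ, E) 𝓘(ℝ, E) 1 G) (hc : ∀ t x, G (Φ t x) = Φ t (G x)) (x : M) (t : W) :
    dg E G x (orb E Φ x t) = orb E Φ (G x) t := by
  have h1 : (fun t : W => Φ t (G x)) = G ∘ fun t : W => Φ t x := by
    ext1 t
    exact (hc t x).symm
  have h2 := mfderiv_comp (I := 𝓘(ℝ, W)) (I' := 𝓘(ℝ, E)) (I'' := 𝓘(ℝ, E)) (0 : W)
    (hG.mdifferentiableAt (by norm_num) : MDifferentiableAt 𝓘(ℝ, E) 𝓘(ℝ, E) G (Φ 0 x))
    ((h.smooth_orb x).mdifferentiableAt (by norm_num) :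
      MDifferentiableAt 𝓘(ℝ, W) 𝓘(ℝ, E) (fun t : W => Φ t x) 0)
  have h3 : orb E Φ (G x) t = dg E G (Φ 0 x) (orb E Φ x t) := by
    unfold orb
    rw [h1, h2]
    rfl
  rw [h3, h.zero]

theorem IsAction.isAct {r : ℕ∞} (hr : 1 ≤ r) {Φ : W → M → M} (h : IsAction E r Φ) :
    IsAct E Φ where
  zero := h.zero
  add := h.add
  smooth := h.smooth.of_le (by exact_mod_cast hr)

end orbit

section

variable {E : Type u} [NormedAddCommGroup E] [NormedSpace ℝ E] [FiniteDimensional ℝ E]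
  {M : Type v} [MetricSpace M] [CompactSpace M] [ChartedSpace E M] [IsManifold 𝓘(ℝ, E) ∞ M]
  {W : Type} [NormedAddCommGroup W] [NormedSpace ℝ W]
  {F : Type w} [NormedAddCommGroup F] [NormedSpace ℝ F]

theorem th_of_trans {e : M → F} (he : Emb E e) (φ : M ≃ₜ M)
    (hsm : ContMDiff 𝓘(ℝ, E) 𝓘(ℝ, E) 1 φ) (hsm' : ContMDiff 𝓘(ℝ, E) 𝓘(ℝ, E) 1 φ.symm)
    {Φ : W → M → M} (hA : IsAct E Φ) (hc : ∀ t x, φ (Φ t x) = Φ t (φ x))
    {Λ : Set M} {Nm : TangentBundle 𝓘(ℝ, E) M → ℝ}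
    {Es Eu : ∀ x : M, Submodule ℝ (TangentSpace 𝓘(ℝ, E) x)} {C a : ℝ}
    (h : IsTransHypOn φ Φ Λ Nm Es Eu C a) {B : ℝ} (hB : ActCont E e Φ B)
    {C₁ : ℝ} (hC₁ : ∀ x ∈ Λ, ∀ t : W, ‖t‖ ≤ C₁ * ‖dm E e x (orb E Φ x t)‖) :
    ∃ C' : ℝ, TH (E := E) e φ Φ Λ Es Eu C' a := by
  have he1 : ContMDiff 𝓘(ℝ, E) 𝓘(ℝ, F) 1 e := he.smooth.of_le (by simp)
  obtain ⟨Q, hQ, hcmp⟩ := tnm_compare h.norm e he1 he.inj
  have ha := h.a_pos
  let Es' : M → Submodule ℝ E := Es
  let Eu' : M → Submodule ℝ E := Eu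
  have inv1 : ∀ x ∈ Λ, φ x ∈ Λ := fun x hx => by
    rw [← h.inv]; exact mem_image_of_mem φ hx
  have inv1' : ∀ x ∈ Λ, φ.symm x ∈ Λ := fun x hx => by
    rw [← h.inv] at hx
    obtain ⟨y, hy, rfl⟩ := hx
    rw [Homeomorph.symm_apply_apply]; exact hy
  have inv : ∀ x ∈ Λ, ∀ k : ℕ, φ^[k] x ∈ Λ := by
    intro x hx k
    induction k with
    | zero => exact hx
    | succ k ih => rw [Function.iterate_succ_apply']; exact inv1 _ ih
  have inv' : ∀ x ∈ Λ, ∀ k : ℕ, φ.symm^[k] x ∈ Λ := by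
    intro x hx k
    induction k with
    | zero => exact hx
    | succ k ih => rw [Function.iterate_succ_apply']; exact inv1' _ ih
  have map1 : ∀ (Z : M → Submodule ℝ E),
      (∀ x ∈ Λ, (Z x).map (dg E φ x).toLinearMap = Z (φ x)) →
      ∀ (k : ℕ), ∀ x ∈ Λ, ∀ v ∈ Z x, dg E (φ^[k]) x v ∈ Z (φ^[k] x) := by
    intro Z hZ k
    induction k with
    | zero =>
      intro x _ v hv
      have : dg E (φ^[0]) x v = v := by
        show mfderiv 𝓘(ℝ, E) 𝓘(ℝ, E) id x v = v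
        rw [mfderiv_id]; rfl
      rw [this]; exact hv
    | succ k ih =>
      intro x hx v hv
      rw [Function.iterate_succ, dg_comp _ _ hsm (iter_smooth φ hsm k)]
      apply ih _ (inv1 x hx)
      rw [← hZ x hx]
      exact ⟨v, hv, rfl⟩
  have map2 : ∀ (Z : M → Submodule ℝ E),
      (∀ x ∈ Λ, (Z x).map (dg E φ x).toLinearMap = Z (φ x)) →
      ∀ (k : ℕ), ∀ x ∈ Λ, ∀ v ∈ Z x, dg E (φ.symm^[k]) x v ∈ Z (φ.symm^[k] x) := by
    intro Z hZ k
    have base : ∀ x ∈ Λ, ∀ v ∈ Z x, dg E φ.symm x v ∈ Z (φ.symm x) := by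
      intro x hx' v hv
      have hx : Z x = Z (φ (φ.symm x)) := by rw [Homeomorph.apply_symm_apply]
      rw [hx, ← hZ _ (inv1' x hx')] at hv
      obtain ⟨w, hw, hwv⟩ := hv
      have h1 := dg_inv φ φ.symm hsm hsm' (fun x => φ.symm_apply_apply x) (φ.symm x) w
      rw [Homeomorph.apply_symm_apply] at h1
      have h2 : dg E φ (φ.symm x) w = v := hwv
      rw [h2] at h1
      rw [h1]; exact hw
    induction k with
    | zero =>
      intro x _ v hv
      have : dg E (φ.symm^[0]) x v = v := by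
        show mfderiv 𝓘(ℝ, E) 𝓘(ℝ, E) id x v = v
        rw [mfderiv_id]; rfl
      rw [this]; exact hv
    | succ k ih =>
      intro x hx v hv
      rw [Function.iterate_succ, dg_comp _ _ hsm' (iter_smooth φ.symm hsm' k)]
      exact ih _ (inv1' x hx) _ (base x hx v hv)
  have hEs : ∀ x ∈ Λ, (Es' x).map (dg E φ x).toLinearMap = Es' (φ x) := h.map_s
  have hEu : ∀ x ∈ Λ, (Eu' x).map (dg E φ x).toLinearMap = Eu' (φ x) := h.map_u
  have hcc : ∀ (k : ℕ) (t : W) (x : M), φ^[k] (Φ t x) = Φ t (φ^[k] x) := by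
    intro k t x
    induction k with
    | zero => rfl
    | succ k ih => rw [Function.iterate_succ_apply', ih, Function.iterate_succ_apply']; exact hc t _
  have hc' : ∀ (t : W) x, φ.symm (Φ t x) = Φ t (φ.symm x) := by
    intro t x
    apply φ.injective
    rw [hc, Homeomorph.apply_symm_apply, Homeomorph.apply_symm_apply]
  have hcc' : ∀ (k : ℕ) (t : W) (x : M), φ.symm^[k] (Φ t x) = Φ t (φ.symm^[k] x) := by
    intro k t x
    induction k with
    | zero => rfl
    | succ k ih => rw [Function.iterate_succ_apply', ih, Function.iterate_succ_apply']; exact hc' t _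
  set C' := max (max 1 (Q * Q * C)) (max B C₁) with hC'
  have hC'1 : 1 ≤ C' := (le_max_left _ _).trans (le_max_left _ _)
  have hC'2 : Q * Q * C ≤ C' := (le_max_right _ _).trans (le_max_left _ _)
  have hC'3 : B ≤ C' := (le_max_left _ _).trans (le_max_right _ _)
  have hC'4 : C₁ ≤ C' := (le_max_right _ _).trans (le_max_right _ _)
  have trans : ∀ (x y : M) (v w : E) (q : ℝ), 0 ≤ q → tnm Nm y w ≤ C * q * tnm Nm x v →
      ‖dm E e y w‖ ≤ C' * q * ‖dm E e x v‖ := by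
    intro x y v w q hq hle
    have h1 := (hcmp y w).1
    have h2 := (hcmp x v).2
    have h3 : 0 ≤ tnm Nm y w := tnm_nonneg h.norm y w
    have h4 : 0 ≤ tnm Nm x v := tnm_nonneg h.norm x v
    by_cases hC : 0 ≤ C
    · calc ‖dm E e y w‖ ≤ Q * tnm Nm y w := h1
        _ ≤ Q * (C * q * tnm Nm x v) := mul_le_mul_of_nonneg_left hle hQ.le
        _ ≤ Q * (C * q * (Q * ‖dm E e x v‖)) := by
            apply mul_le_mul_of_nonneg_left _ hQ.le
            exact mul_le_mul_of_nonneg_left h2 (by positivity)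
        _ = (Q * Q * C) * (q * ‖dm E e x v‖) := by ring
        _ ≤ C' * (q * ‖dm E e x v‖) := mul_le_mul_of_nonneg_right hC'2 (by positivity)
        _ = _ := by ring
    · push Not at hC
      have h5 : C * q * tnm Nm x v ≤ 0 := by
        have : C * q ≤ 0 := mul_nonpos_of_nonpos_of_nonneg hC.le hq
        exact mul_nonpos_of_nonpos_of_nonneg this h4
      have h6 : tnm Nm y w = 0 := le_antisymm (hle.trans h5) h3
      rw [h6, mul_zero] at h1
      exact h1.trans (by positivity)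
  refine ⟨C', {
    smooth := hsm
    smooth' := hsm'
    eqv := fun k x t => orb_map hA (φ^[k]) (iter_smooth φ hsm k) (hcc k) x t
    eqv' := fun k x t => orb_map hA (φ.symm^[k]) (iter_smooth φ.symm hsm' k) (hcc' k) x t
    inv := inv
    inv' := inv'
    decomp := ?_
    low := fun x hx t => (hC₁ x hx t).trans (mul_le_mul_of_nonneg_right hC'4 (norm_nonneg _))
    up := fun x t => (hB.bd x t).trans (mul_le_mul_of_nonneg_right hC'3 (norm_nonneg _))
    C_pos := hC'1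
    a_pos := ha
    a_lt := h.a_lt
    mapS := map1 Es' hEs
    mapU := map1 Eu' hEu
    mapS' := map2 Es' hEs
    mapU' := map2 Eu' hEu
    hS := ?_
    hU' := ?_ }⟩
  · intro x hx v
    obtain ⟨s, hs, u, hu, t, hv⟩ := h.sum x hx v
    exact ⟨s, hs, u, hu, t, hv⟩
  · intro k x hx v hv
    exact trans x _ v _ _ (by positivity) (h.rate_s k x hx v hv)
  · intro k x hx v hv
    exact trans x _ v _ _ (by positivity) (h.rate_u k x hx v hv)

end

end Q263.HS
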