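import Mathlib
import Pool.Agent.Q263.HS.Geo

/-! Construction of the abstract system. -/

set_option autoImplicit false
set_option linter.unusedSectionVars false

open scoped Manifold ContDiff Topology
open Set Filter Pool.Agent.H721R2 Q263.HR

namespace Q263.HS

universe u v w

variable {E : Type u} [NormedAddCommGroup E] [NormedSpace ℝ E] [FiniteDimensional ℝ E]
  {M : Type v} [MetricSpace M] [CompactSpace M] [ChartedSpace E M] [IsManifold 𝓘(ℝ, E) ∞ M]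
  {F : Type w} [NormedAddCommGroup F] [NormedSpace ℝ F]
  {W : Type} [NormedAddCommGroup W] [NormedSpace ℝ W]

/-- the system realises the geometric data -/
structure Real (S : Sys M F W) (e : M → F) (G : M → M) (Φ : W → M → M) (Λ : Set M) : Prop where
  e_eq : S.e = e
  g_eq : S.g = G
  Φ_eq : S.Φ = Φ
  Λ_eq : S.Λ = Λ

theorem exists_sys (hTR : S_TR.{u, v, w}) (hCONT : S_CONT.{u, v, w}) {e : M → F} (he : Emb E e)
    {Φ : W → M → M} {B' : ℝ} (hΦ : ActCont E e Φ B') (hact : IsAct E Φ) {f : M ≃ₜ M} {Λ : Set M}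
    {Es Eu : M → Submodule ℝ E} {C a : ℝ} (h : TH e f Φ Λ Es Eu C a) (K : ℝ) (hK : 1 ≤ K)
    (hang : ∀ x ∈ Λ, ∀ s ∈ Es x, ∀ u ∈ Eu x, ∀ t : W,
      ‖dm E e x s‖ ≤ K * ‖dm E e x (s + u + orb E Φ x t)‖ ∧
      ‖dm E e x u‖ ≤ K * ‖dm E e x (s + u + orb E Φ x t)‖ ∧
      ‖t‖ ≤ K * ‖dm E e x (s + u + orb E Φ x t)‖) (N : ℕ) (hKN : K * (C * a ^ N) ≤ 1 / 16) :
    ∃ S : Sys M F W, Real S e (f^[N]) Φ Λ := by
  have he1 : ContMDiff 𝓘(ℝ, E) 𝓘(ℝ, F) 1 e := he.smooth.of_le (by simp)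
  have hinj := he.inj
  have hiso := he.iso
  have hC := h.C_pos
  have hC0 : 0 < C := by linarith
  have hsm := iter_smooth f h.smooth N
  have hsm' := iter_smooth f.symm h.smooth' N
  have hleft : ∀ x, ∃ L : F →ₗ[ℝ] E, ∀ v, L (dm E e x v) = v := by
    intro x
    obtain ⟨L, hL⟩ := LinearMap.exists_leftInverse_of_injective (dm E e x).toLinearMap
      (LinearMap.ker_eq_bot.mpr (hinj x))
    exact ⟨L, fun v => LinearMap.congr_fun hL v⟩
  choose L hL using hleft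
  let D : M → F →ₗ[ℝ] F := fun x =>
    (dm E e (f^[N] x)).toLinearMap ∘ₗ (dg E (f^[N]) x).toLinearMap ∘ₗ L x
  have hD : ∀ x v, D x (dm E e x v) = dm E e (f^[N] x) (dg E (f^[N]) x v) := by
    intro x v
    show dm E e (f^[N] x) (dg E (f^[N]) x (L x (dm E e x v))) = _
    rw [hL]
  let Vs : M → Submodule ℝ F := fun x => (Es x).map (dm E e x).toLinearMap
  let Vu : M → Submodule ℝ F := fun x => (Eu x).map (dm E e x).toLinearMap
  obtain ⟨Bg, hBg, hBgv⟩ := global_bound e he1 hinj (f^[N]) hsm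
  have hang' : ∀ x ∈ Λ, ∀ s ∈ Eu x, ∀ u ∈ Es x, ∀ t : W,
      ‖dm E e x s‖ ≤ K * ‖dm E e x (s + u + orb E Φ x t)‖ ∧
      ‖dm E e x u‖ ≤ K * ‖dm E e x (s + u + orb E Φ x t)‖ ∧
      ‖t‖ ≤ K * ‖dm E e x (s + u + orb E Φ x t)‖ := by
    intro x hx s hs u hu t
    have := hang x hx u hu s hs t
    rw [add_comm s u]
    exact ⟨this.2.1, this.1, this.2.2⟩
  refine ⟨{
    e := e
    isom := hiso
    g := f^[N]
    Φ := Φ
    Λ := Λ
    Vs := Vs
    Vu := Vu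
    c := fun x => (dm E e x).toLinearMap ∘ₗ (orb E Φ x).toLinearMap
    D := D
    K := K
    L := max 1 Bg
    θ := C * a ^ N
    one_le_K := hK
    one_le_L := le_max_left _ _
    θ_nonneg := mul_nonneg hC0.le (pow_nonneg h.a_pos.le _)
    Kθ := hKN
    gcont := hsm.continuous
    Φcont := hact.smooth.continuous
    Φzero := hact.zero
    Φadd := hact.add
    mapΛ := fun x hx => h.inv x hx N
    angle := ?_
    mapS := ?_
    mapU := ?_
    surjU := ?_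
    contrS := ?_
    contrU := ?_
    boundD := ?_
    H1 := ?_
    H2 := ?_
    H4 := ?_
    H5 := ?_
    F1 := hΦ.F1
    F2 := hΦ.F2 }, ⟨rfl, rfl, rfl, rfl⟩⟩
  · rintro x hx w ⟨v, hv, rfl⟩ w' ⟨v', hv', rfl⟩ t
    have := hang x hx v hv v' hv' t
    rw [map_add, map_add] at this
    exact this
  · rintro x hx w ⟨v, hv, rfl⟩
    exact ⟨_, h.mapS N x hx v hv, (hD x v).symm⟩
  · rintro x hx w ⟨v, hv, rfl⟩
    exact ⟨_, h.mapU N x hx v hv, (hD x v).symm⟩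
  · rintro x hx w ⟨v, hv, rfl⟩
    have h1 := h.mapU' N (f^[N] x) (h.inv x hx N) v hv
    rw [iter_left] at h1
    refine ⟨dm E e x (dg E (f.symm^[N]) (f^[N] x) v), ⟨_, h1, rfl⟩, ?_⟩
    rw [hD]
    have h2 := dg_inv (f.symm^[N]) (f^[N]) hsm' hsm (iter_right f N) (f^[N] x) v
    rw [iter_left] at h2
    rw [h2]
    rfl
  · rintro x hx w ⟨v, hv, rfl⟩
    change ‖D x (dm E e x v)‖ ≤ C * a ^ N * ‖dm E e x v‖
    rw [hD]; exact h.hS N x hx v hv
  · rintro x hx w ⟨v, hv, rfl⟩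
    change ‖dm E e x v‖ ≤ C * a ^ N * ‖D x (dm E e x v)‖
    rw [hD]
    have h3 := h.hU' N (f^[N] x) (h.inv x hx N) _ (h.mapU N x hx v hv)
    rw [dg_inv (f^[N]) (f.symm^[N]) hsm hsm' (iter_left f N), iter_left] at h3
    exact h3
  · rintro x hx w ⟨v, hv, rfl⟩ w' ⟨v', hv', rfl⟩
    change ‖D x (dm E e x v + dm E e x v')‖ ≤ max 1 Bg * ‖dm E e x v + dm E e x v'‖
    rw [← map_add, hD]
    exact (hBgv x _).trans (mul_le_mul_of_nonneg_right (le_max_right _ _) (norm_nonneg _))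
  · intro η hη
    obtain ⟨r, hr, h1, -, -⟩ := hTR E M F e he (f^[N]) hsm η hη
    refine ⟨r, hr, fun x hx y y' hy hy' => ?_⟩
    obtain ⟨v, hv⟩ := h1 x y y' hy hy'
    obtain ⟨s, hs, u, hu, t, hsu⟩ := h.decomp x hx v
    refine ⟨dm E e x s, ⟨s, hs, rfl⟩, dm E e x u, ⟨u, hu, rfl⟩, t, ?_⟩
    have e1 : dm E e x s + dm E e x u + dm E e x (orb E Φ x t) = dm E e x v := by
      rw [← map_add, ← map_add, hsu]
    change ‖e y' - e y - (dm E e x s + dm E e x u + dm E e x (orb E Φ x t))‖ ≤ _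
    rw [e1]; exact hv
  · intro η hη
    obtain ⟨r, hr, -, h1, -⟩ := hTR E M F e he (f^[N]) hsm η hη
    refine ⟨r, hr, ?_⟩
    rintro x hx y hy w ⟨v, hv, rfl⟩ w' ⟨v', hv', rfl⟩ hlt
    change ‖dm E e x v + dm E e x v'‖ < r at hlt
    change ∃ y', ‖e y' - e y - (dm E e x v + dm E e x v')‖ ≤ η * ‖dm E e x v + dm E e x v'‖ ∧
      ‖e (f^[N] y') - e (f^[N] y) - D x (dm E e x v + dm E e x v')‖ ≤
        η * ‖dm E e x v + dm E e x v'‖
    rw [← map_add] at hlt ⊢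
    rw [hD]
    exact h1 x y hy _ hlt
  · intro η hη
    obtain ⟨r, hr, hP⟩ := hCONT E M F e he W Φ f.symm Λ Eu Es C a h.symm K hK hang'
      η hη
    refine ⟨r, hr, ?_⟩
    rintro x hx y hy hxy w ⟨v, hv, rfl⟩
    obtain ⟨v', hv', h1⟩ := hP x hx y hy hxy v hv
    exact ⟨_, ⟨v', hv', rfl⟩, h1⟩
  · intro η hη
    obtain ⟨r, hr, hP⟩ := hCONT E M F e he W Φ f Λ Es Eu C a h K hK hang η hη
    refine ⟨r, hr, ?_⟩
    rintro x hx y hy hxy w ⟨v, hv, rfl⟩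
    obtain ⟨v', hv', h1⟩ := hP x hx y hy hxy v hv
    exact ⟨_, ⟨v', hv', rfl⟩, h1⟩

end Q263.HS
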