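import Mathlib
import Pool.Agent.Q263.HS.Rates
import Pool.Agent.Q263.HS.SysB

/-! Relative periodic points near the chain recurrent points. -/

set_option autoImplicit false
set_option linter.unusedSectionVars false

open scoped Manifold ContDiff Topology
open Set Filter Pool.Agent.H721R2 Q263.HR

namespace Q263.HS

universe u v w

variable {E : Type u} [NormedAddCommGroup E] [NormedSpace ℝ E] [FiniteDimensional ℝ E]
  {M : Type v} [MetricSpace M] [CompactSpace M] [ChartedSpace E M] [IsManifold 𝓘(ℝ, E) ∞ M]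
  {W : Type} [NormedAddCommGroup W] [NormedSpace ℝ W] [FiniteDimensional ℝ W]
  {F : Type w} [NormedAddCommGroup F] [NormedSpace ℝ F]

theorem relper_metric (hTR : S_TR.{u, v, w}) (hFL : S_FL.{u, v, w}) (hANG : S_ANG.{u, v, w})
    (hCONT : S_CONT.{u, v, w}) (hLOW : S_LOW.{u, v, w}) (hCH : S_CHAIN.{v})
    {e : M → F} (he : Emb E e) (φ : M ≃ₜ M)
    (hsm : ContMDiff 𝓘(ℝ, E) 𝓘(ℝ, E) 1 φ) (hsm' : ContMDiff 𝓘(ℝ, E) 𝓘(ℝ, E) 1 φ.symm)
    {Φ : W → M → M} (hA : IsAct E Φ) (hc : ∀ t x, φ (Φ t x) = Φ t (φ x))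
    {Λ : Set M} (h : IsTransHyp E φ Φ Λ) (z : M) (hz : ChainRec φ Λ z) (U : Set M) (hU : U ∈ 𝓝 z)
    (κ : ℝ) (hκ : 0 < κ) :
    ∃ y ∈ U, ∃ (m : ℕ) (T : W), 0 < m ∧ ‖T‖ ≤ κ * m ∧ Φ T (φ^[m] y) = y ∧
      ∃ r' > 0, ∀ t : W, ‖t‖ < r' → Φ t y = y → t = 0 := by
  obtain ⟨Nm, Es, Eu, C, a, h⟩ := h
  have : CompleteSpace W := FiniteDimensional.complete ℝ W
  have hcomp : CompleteSpace M := inferInstance
  obtain ⟨B, hB⟩ := hFL E M F e he W Φ hA
  obtain ⟨C₁, hC₁0, hC₁⟩ := hLOW E M F e he W Φ B hB Λ h.closed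
    (fun x hx t ht => h.free x hx t ht)
  obtain ⟨C', hT⟩ := th_of_trans he φ hsm hsm' hA hc h hB hC₁
  have hC'1 := hT.C_pos
  obtain ⟨K, hK, hang⟩ := hANG E M F e he W Φ φ Λ Es Eu C' a hT
  have t1 : Tendsto (fun k : ℕ => K * (C' * a ^ k)) atTop (𝓝 0) := by
    have := ((tendsto_pow_atTop_nhds_zero_of_lt_one hT.a_pos.le hT.a_lt).const_mul C').const_mul K
    simpa using this
  obtain ⟨k, hk⟩ := ((tendsto_order.mp t1).2 (1 / 16) (by norm_num)).exists
  have hk0 : 0 < k := by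
    rcases Nat.eq_zero_or_pos k with h0 | h0
    · rw [h0, pow_zero, mul_one] at hk
      nlinarith
    · exact h0
  obtain ⟨S, hS⟩ := exists_sys hTR hCONT he hB hA hT K hK hang k hk.le
  obtain ⟨r2, hr2, hF2⟩ := hB.F2 (1 / (2 * C')) (by positivity)
  obtain ⟨r3, hr3, hball⟩ := Metric.mem_nhds_iff.1 hU
  set η0 := min (min κ r2) r3 with hη0
  have hη0pos : 0 < η0 := lt_min (lt_min hκ hr2) hr3
  obtain ⟨δ, hδ, hshad⟩ := S.shad S.corr η0 hη0pos
  obtain ⟨m, p, hm, hpΛ, hp0, hpc⟩ := hCH M φ φ.continuous Λ z hz k δ hδ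
  have : NeZero m := ⟨hm.ne'⟩
  set G : M → M := φ^[k] with hG
  have hgeq : ∀ x, S.g x = G x := fun x => congrFun hS.g_eq x
  obtain ⟨y, τ, hy1, hy2, hy3⟩ := hshad (ZMod m) (Equiv.addRight (1 : ZMod m)) p
    (fun j => by rw [hS.Λ_eq]; exact hpΛ j) (fun j => by rw [hgeq]; exact hpc j)
  have hy3' : ∀ j, Φ (τ j) (G (y j)) = y (j + 1) := by
    intro j
    have := hy3 j
    rw [hgeq, hS.Φ_eq] at this
    exact this
  have hcomm : ∀ (t : W) x, G (Φ t x) = Φ t (G x) := by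
    intro t x
    rw [hG]
    clear_value G
    clear hG hgeq hy3 hy3' hpc hS hk hk0
    induction k with
    | zero => rfl
    | succ k ih => rw [Function.iterate_succ_apply', ih, Function.iterate_succ_apply', hc]
  let T : ℕ → W := fun i => ∑ j ∈ Finset.range i, τ (j : ZMod m)
  have hT' : ∀ i, T (i + 1) = τ (i : ZMod m) + T i := fun i => by
    show ∑ j ∈ Finset.range (i + 1), τ (j : ZMod m) = _
    rw [Finset.sum_range_succ, add_comm]
  have hHy : ∀ i : ℕ, Φ (T i) (G^[i] (y 0)) = y (i : ZMod m) := by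
    intro i
    induction i with
    | zero =>
      rw [Nat.cast_zero]
      show Φ ((∑ j ∈ Finset.range 0, τ (j : ZMod m) : W)) (y 0) = y 0
      rw [Finset.sum_range_zero]
      exact hA.zero _
    | succ i ih =>
      rw [hT', hA.add, Function.iterate_succ_apply', ← hcomm, ih, hy3',
        Nat.cast_succ]
  have hTn : ∀ i : ℕ, ‖T i‖ ≤ i * η0 := by
    intro i
    induction i with
    | zero =>
      show ‖(∑ j ∈ Finset.range 0, τ (j : ZMod m) : W)‖ ≤ _
      simp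
    | succ i ih =>
      rw [hT', Nat.cast_succ, add_mul, one_mul]
      have h1 := norm_add_le (τ (i : ZMod m)) (T i)
      have h2 := hy2 (i : ZMod m)
      linarith
  have hz' : z ∈ Λ := by rw [← hp0]; exact hpΛ 0
  have hdz : dist z (y 0) < η0 := by
    have := hy1 0
    rwa [hp0] at this
  refine ⟨y 0, hball ?_, k * m, T m, Nat.mul_pos hk0 hm, ?_, ?_, r2, hr2, ?_⟩
  · rw [Metric.mem_ball, dist_comm]
    exact hdz.trans_le (min_le_right _ _)
  · have h1 : η0 ≤ κ := (min_le_left _ _).trans (min_le_left _ _)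
    have h2 : (m : ℝ) ≤ ((k * m : ℕ) : ℝ) := by
      exact_mod_cast Nat.le_mul_of_pos_left m hk0
    calc ‖T m‖ ≤ m * η0 := hTn m
      _ ≤ ((k * m : ℕ) : ℝ) * κ := by
          apply mul_le_mul h2 h1 hη0pos.le (by positivity)
      _ = _ := mul_comm _ _
  · rw [Function.iterate_mul]
    have := hHy m
    rwa [ZMod.natCast_self] at this
  · intro t ht hty
    have h1 := hF2 z (y 0) t (hdz.trans_le ((min_le_left _ _).trans (min_le_right _ _))) ht
    have h2 : e (Φ t (y 0)) - e (y 0) = 0 := by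
      rw [hty, sub_self]
    rw [h2, zero_sub, norm_neg] at h1
    have h3 := hT.low z hz' t
    have h4 : C' * ‖dm E e z (orb E Φ z t)‖ ≤ C' * (1 / (2 * C') * ‖t‖) :=
      mul_le_mul_of_nonneg_left h1 (by linarith)
    have h5 : C' * (1 / (2 * C') * ‖t‖) = ‖t‖ / 2 := by field_simp
    have h6 : ‖t‖ = 0 := by
      have := norm_nonneg t
      linarith
    exact norm_eq_zero.mp h6

end Q263.HS
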