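import Mathlib
import Pool.Agent.Q263.HS.Rel
import Pool.Agent.TH80.OMS.Main
import Pool.Agent.TH80.CLX.Fam
import Pool.Agent.H728R2.OS.S.NOCYC

/-! Stable diffeomorphisms commuting with an action of a vector group. -/

set_option autoImplicit false
set_option linter.unusedSectionVars false

open scoped Manifold ContDiff Topology
open Set Filter Pool.Agent.H721R2 Pool.Agent.H718R2.G Q263.HR Pool.Agent.TH80.OMS
  Pool.Agent.TH80.CLX

namespace Q263.HS

universe u v w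

section top

variable {n : ℕ} {N : Type u} [TopologicalSpace N] [ChartedSpace (V n) N]
  {W : Type} [NormedAddCommGroup W] [NormedSpace ℝ W]

/-- the diffeomorphism `Φ t` -/
noncomputable def actDiff {r : ℕ∞} {Φ : W → N → N} (hΦ : IsAction (V n) r Φ) (t : W) : DiffM n N r where
  toFun := Φ t
  invFun := Φ (-t)
  left_inv := fun x => by rw [← hΦ.add, neg_add_cancel, hΦ.zero]
  right_inv := fun x => by rw [← hΦ.add, add_neg_cancel, hΦ.zero]
  contMDiff_toFun := hΦ.smooth.comp (contMDiff_const.prodMk contMDiff_id)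
  contMDiff_invFun := hΦ.smooth.comp (contMDiff_const.prodMk contMDiff_id)

/-- the family `Φ s ∘ F` -/
noncomputable def fam {r : ℕ∞} {Φ : W → N → N} (hΦ : IsAction (V n) r Φ) (F : DiffM n N r) (s : W) : DiffM n N r :=
  F.trans (actDiff hΦ s)

theorem fam_apply {r : ℕ∞} {Φ : W → N → N} (hΦ : IsAction (V n) r Φ) (F : DiffM n N r) (s : W)
    (x : N) : fam hΦ F s x = Φ s (F x) := rfl

theorem isFam_fam {r : ℕ∞} {Φ : W → N → N} (hΦ : IsAction (V n) r Φ) (F : DiffM n N r) :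
    Pool.Agent.W564.SC.IsFam n N r (fam hΦ F) := by
  intro y
  have h1 : ContMDiff (𝓘(ℝ, W).prod (𝓡 n)) (𝓡 n) r (fun q : W × N => Φ q.1 (F q.2)) :=
    hΦ.smooth.comp (contMDiff_fst.prodMk (F.contMDiff.comp contMDiff_snd))
  exact h1.contMDiffAt

theorem fam_iter {r : ℕ∞} {Φ : W → N → N} (hΦ : IsAction (V n) r Φ) (F : DiffM n N r)
    (hc : ∀ t x, F (Φ t x) = Φ t (F x)) (s : W) (m : ℕ) (x : N) :
    (fam hΦ F s)^[m] x = Φ (m • s) (F^[m] x) := by
  induction m with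
  | zero => rw [zero_smul, hΦ.zero]; rfl
  | succ m ih =>
    rw [Function.iterate_succ_apply', ih, fam_apply, hc, ← hΦ.add, succ_nsmul',
      Function.iterate_succ_apply']

theorem omegaStable_of_struct {r : ℕ∞} {F : DiffM n N r} (h : StructStable n N r F) :
    OmegaStable n N r F := by
  obtain ⟨U, hU, hF, h⟩ := h
  refine ⟨U, hU, hF, fun G hG => ?_⟩
  obtain ⟨e, he⟩ := h G hG
  have he' : ∀ x, e.symm (G x) = F (e.symm x) := by
    intro x
    rw [Homeomorph.symm_apply_eq, he, Homeomorph.apply_symm_apply]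
  have key : ∀ (A B : N → N) (φ : N ≃ₜ N), (∀ x, φ (A x) = B (φ x)) → ∀ x, x ∈ Omega A →
      φ x ∈ Omega B := by
    intro A B φ hφ x hx V hV hxV
    obtain ⟨k, hk, y, hy, hy2⟩ := hx (φ ⁻¹' V) (hV.preimage φ.continuous) hxV
    refine ⟨k, hk, φ y, hy, ?_⟩
    have : φ (A^[k] y) = B^[k] (φ y) := by
      clear hy2
      induction k with
      | zero => rfl
      | succ k ih =>
        rcases Nat.eq_zero_or_pos k with h0 | h0
        · subst h0; exact hφ y
        · rw [Function.iterate_succ_apply', hφ, ih h0, Function.iterate_succ_apply']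
    rw [← this]
    exact hy2
  refine ⟨e.subtype fun x => ⟨key F G e he x, fun hx => ?_⟩, ?_⟩
  · have := key G F e.symm he' (e x) hx
    rwa [Homeomorph.symm_apply_apply] at this
  · intro x y hxy
    show G (e x) = e y
    rw [← hxy, he]

end top

section emb

theorem exists_chainRec (E : Type u) [NormedAddCommGroup E] [NormedSpace ℝ E]
    [FiniteDimensional ℝ E] {M : Type v} [TopologicalSpace M] [T2Space M] [CompactSpace M]
    [ChartedSpace E M] [IsManifold 𝓘(ℝ, E) ∞ M] (hOM : S_OMEGA.{v}) (g : M → M)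
    (hg : Continuous g) (Λ : Set M) (hΛ : IsClosed Λ) (hinv : ∀ x ∈ Λ, g x ∈ Λ)
    (hne : Λ.Nonempty) : ∃ z ∈ Λ, ChainRec g Λ z := by
  obtain ⟨m, e, he, hemb, hinj⟩ := exists_embedding_euclidean_of_compact (I := 𝓘(ℝ, E)) (M := M)
  let _ : MetricSpace M := hemb.isEmbedding.comapMetricSpace e
  obtain ⟨x, hx⟩ := hne
  obtain ⟨z, hz⟩ := nonempty_omegaLimit (f := atTop) (ϕ := fun (n : ℕ) (y : M) => g^[n] y)
    (s := {x}) (singleton_nonempty x)
  exact ⟨z, hOM M g hg Λ hΛ hinv x hx z hz⟩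

theorem relper (hTR : S_TR.{u, v, 0}) (hFL : S_FL.{u, v, 0}) (hANG : S_ANG.{u, v, 0})
    (hCONT : S_CONT.{u, v, 0}) (hLOW : S_LOW.{u, v, 0}) (hCH : S_CHAIN.{v})
    {E : Type u} [NormedAddCommGroup E] [NormedSpace ℝ E] [FiniteDimensional ℝ E]
    {M : Type v} [TopologicalSpace M] [T2Space M] [CompactSpace M]
    [ChartedSpace E M] [IsManifold 𝓘(ℝ, E) ∞ M]
    {W : Type} [NormedAddCommGroup W] [NormedSpace ℝ W] [FiniteDimensional ℝ W]
    (φ : M ≃ₜ M)
    (hsm : ContMDiff 𝓘(ℝ, E) 𝓘(ℝ, E) 1 φ) (hsm' : ContMDiff 𝓘(ℝ, E) 𝓘(ℝ, E) 1 φ.symm)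
    {Φ : W → M → M} (hA : IsAct E Φ) (hc : ∀ t x, φ (Φ t x) = Φ t (φ x))
    {Λ : Set M} (h : IsTransHyp E φ Φ Λ) (z : M) (hz : ChainRec φ Λ z) (U : Set M) (hU : U ∈ 𝓝 z)
    (κ : ℝ) (hκ : 0 < κ) :
    ∃ y ∈ U, ∃ (m : ℕ) (T : W), 0 < m ∧ ‖T‖ ≤ κ * m ∧ Φ T (φ^[m] y) = y ∧
      ∃ r' > 0, ∀ t : W, ‖t‖ < r' → Φ t y = y → t = 0 := by
  obtain ⟨m, e, he, hemb, hinj⟩ := exists_embedding_euclidean_of_compact (I := 𝓘(ℝ, E)) (M := M)
  let _ : MetricSpace M := hemb.isEmbedding.comapMetricSpace e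
  have hE : Emb E e := ⟨fun x y => dist_eq_norm (e x) (e y), he, hinj⟩
  exact relper_metric hTR hFL hANG hCONT hLOW hCH hE φ hsm hsm' hA hc h z hz U hU κ hκ

/-- no compact set is hyperbolic transversally to the orbits -/
theorem no_trans (hTR : S_TR.{0, u, 0}) (hFL : S_FL.{0, u, 0}) (hANG : S_ANG.{0, u, 0})
    (hCONT : S_CONT.{0, u, 0}) (hLOW : S_LOW.{0, u, 0}) (hCH : S_CHAIN.{u}) (hOM : S_OMEGA.{u})
    {n : ℕ} {N : Type u} [TopologicalSpace N] [T2Space N] [CompactSpace N]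
    [ChartedSpace (V n) N] [IsManifold (𝓡 n) ∞ N] {W : Type} [NormedAddCommGroup W]
    [NormedSpace ℝ W] [FiniteDimensional ℝ W]
    {r : ℕ∞} (hr : 1 ≤ r) {U : Set (DiffM n N r)} (hU : IsOpen[strongTop n N r] U)
    (hfin : ∀ G ∈ U, ∀ k : ℕ, 1 ≤ k → {x | G^[k] x = x}.Finite) (G : DiffM n N r) (hG : G ∈ U)
    {Φ : W → N → N} (hΦ : IsAction (V n) r Φ) (hc : ∀ t x, G (Φ t x) = Φ t (G x))
    [Nontrivial W] {Λ : Set N} (h : IsTransHyp (V n) G.toHomeomorph Φ Λ) : Λ = ∅ := by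
  by_contra hne
  rw [← ne_eq, ← nonempty_iff_ne_empty] at hne
  obtain ⟨Nm, Es, Eu, C, a, h'⟩ := id h
  have hinv : ∀ x ∈ Λ, G x ∈ Λ := fun x hx => by
    rw [← h'.inv]; exact mem_image_of_mem G hx
  obtain ⟨z, hzΛ, hz⟩ := exists_chainRec (V n) hOM G G.continuous Λ h'.closed hinv hne
  obtain ⟨κ, hκ, hmem⟩ := fam_mem r hr (fam hΦ G) (isFam_fam hΦ G) z U hU (by
    have : fam hΦ G 0 = G := by
      ext x
      exact hΦ.zero _
    rw [this]; exact hG)
  obtain ⟨y, -, m, T, hm, hT, hy, r', hr', hfree⟩ := relper hTR hFL hANG hCONT hLOW hCH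
    G.toHomeomorph (G.contMDiff.of_le (by exact_mod_cast hr))
    (G.symm.contMDiff.of_le (by exact_mod_cast hr)) (hΦ.isAct hr) hc h
    z hz univ univ_mem (κ / 2) (by positivity)
  have hm' : (0 : ℝ) < m := by exact_mod_cast hm
  change Φ T (G^[m] y) = y at hy
  set s : W := (m : ℝ)⁻¹ • T with hs
  have hsn : ‖s‖ < κ := by
    rw [hs, norm_smul, norm_inv, Real.norm_natCast, inv_mul_lt_iff₀ hm']
    nlinarith
  have hms : m • s = T := by
    rw [hs, ← Nat.cast_smul_eq_nsmul ℝ, smul_smul, mul_inv_cancel₀ hm'.ne', one_smul]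
  have hper : ∀ t : W, (fam hΦ G s)^[m] (Φ t y) = Φ t y := by
    intro t
    rw [fam_iter hΦ G hc, hms]
    have h1 : G^[m] (Φ t y) = Φ t (G^[m] y) := by
      clear hy hT hms hsn hs s hmem hm hm'
      induction m with
      | zero => rfl
      | succ m ih => rw [Function.iterate_succ_apply', ih, hc, Function.iterate_succ_apply']
    rw [h1, ← hΦ.add, add_comm, hΦ.add, hy]
  have hF := hfin _ (hmem s hsn) m hm
  have hsub : (fun t : W => Φ t y) '' Metric.ball (0 : W) (r' / 2) ⊆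
      {x | (fam hΦ G s)^[m] x = x} := by
    rintro _ ⟨t, -, rfl⟩
    exact hper t
  have hinj : InjOn (fun t : W => Φ t y) (Metric.ball (0 : W) (r' / 2)) := by
    intro t ht t' ht' htt
    have h1 : Φ (t - t') y = y := by
      have h2 : Φ t y = Φ t' y := htt
      rw [sub_eq_neg_add, hΦ.add, h2, ← hΦ.add, neg_add_cancel, hΦ.zero]
    have h3 : ‖t - t'‖ < r' := by
      have h4 := norm_sub_le t t'
      rw [mem_ball_zero_iff] at ht ht'
      linarith
    exact sub_eq_zero.mp (hfree _ h3 h1)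
  have hballfin := (hF.subset hsub).of_finite_image hinj
  have hinf : (Metric.ball (0 : W) (r' / 2)).Infinite :=
    infinite_of_mem_nhds (0 : W) (Metric.ball_mem_nhds _ (by positivity))
  exact hinf hballfin

end emb

end Q263.HS
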