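import Mathlib
import Pool.Agent.Q263.HS.Geo

/-! Lower bound for the orbit map on a compact set where the action is locally free. -/

set_option autoImplicit false
set_option linter.unusedSectionVars false

open scoped Manifold ContDiff Topology
open Set Filter Pool.Agent.H721R2 Q263.HR

namespace Q263.HS

universe u v w

theorem low : S_LOW.{u, v, w} := by
  intro E _ _ _ M _ _ _ _ F _ _ e he W _ _ _ Φ B hB Λ hΛ hfree
  set A : M → W → F := fun x t => dm E e x (orb E Φ x t) with hA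
  have hAs : ∀ x (c : ℝ) t, A x (c • t) = c • A x t := fun x c t => by
    simp only [hA, map_smul]
  have hAd : ∀ x t t', A x (t - t') = A x t - A x t' := fun x t t' => by
    simp only [hA, map_sub]
  have h1 : ∀ η > 0, ∃ r > 0, ∀ x x' : M, dist x x' < r → ∀ t : W, ‖A x t - A x' t‖ ≤ 2 * η * ‖t‖ := by
    intro η hη
    obtain ⟨r, hr, h2⟩ := hB.F2 η hη
    refine ⟨r, hr, fun x x' hxx t => ?_⟩
    rcases eq_or_ne t 0 with rfl | ht
    · have : A x 0 - A x' 0 = 0 := by simp only [hA, map_zero, sub_self]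
      rw [this, norm_zero, norm_zero, mul_zero]
    have ht' : 0 < ‖t‖ := norm_pos_iff.2 ht
    set c : ℝ := r / (2 * ‖t‖) with hc
    have hc0 : 0 < c := by positivity
    have hct : ‖c • t‖ = r / 2 := by
      rw [norm_smul, Real.norm_of_nonneg hc0.le, hc]
      field_simp
    have h3 := h2 x x (c • t) (by rw [dist_self]; exact hr) (by rw [hct]; linarith)
    have h4 := h2 x' x (c • t) (by rw [dist_comm]; exact hxx) (by rw [hct]; linarith)
    have h5 : ‖A x (c • t) - A x' (c • t)‖ ≤ 2 * η * ‖c • t‖ := by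
      have : A x (c • t) - A x' (c • t) = (e (Φ (c • t) x) - e x - A x' (c • t)) -
        (e (Φ (c • t) x) - e x - A x (c • t)) := by abel
      rw [this]
      refine (norm_sub_le _ _).trans ?_
      have : 2 * η * ‖c • t‖ = η * ‖c • t‖ + η * ‖c • t‖ := by ring
      rw [this]
      exact add_le_add h4 h3
    rw [hAs, hAs, ← smul_sub, norm_smul, norm_smul, Real.norm_of_nonneg hc0.le] at h5
    have h6 : c * ‖A x t - A x' t‖ ≤ c * (2 * η * ‖t‖) := by linarith
    exact le_of_mul_le_mul_left h6 hc0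
  have hcont : Continuous fun p : M × W => ‖A p.1 p.2‖ := by
    rw [Metric.continuous_iff]
    rintro ⟨x, t⟩ ε hε
    obtain ⟨r, hr, h2⟩ := h1 (ε / (4 * (‖t‖ + 1))) (by positivity)
    refine ⟨min r (min 1 (ε / (4 * B))), ?_, ?_⟩
    · have := hB.pos
      positivity
    · rintro ⟨x', t'⟩ hlt
      rw [Prod.dist_eq, max_lt_iff] at hlt
      simp only [lt_min_iff] at hlt
      obtain ⟨⟨a1, a2, a3⟩, b1, b2, b3⟩ := hlt
      rw [Real.dist_eq]
      have e1 := abs_norm_sub_norm_le (A x' t') (A x t)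
      have e2 : A x' t' - A x t = A x' (t' - t) + (A x' t - A x t) := by
        rw [hAd]; abel
      have e3 : ‖A x' (t' - t)‖ ≤ B * ‖t' - t‖ := hB.bd x' (t' - t)
      have e4 := h2 x' x a1 t
      have e5 : ‖t' - t‖ < ε / (4 * B) := by rw [← dist_eq_norm]; exact b3
      have e6 : B * ‖t' - t‖ ≤ ε / 4 := by
        have := mul_le_mul_of_nonneg_left e5.le hB.pos.le
        have h7 : B * (ε / (4 * B)) = ε / 4 := by
          have := hB.pos.ne'
          field_simp
        linarith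
      have e7 : 2 * (ε / (4 * (‖t‖ + 1))) * ‖t‖ ≤ ε / 2 := by
        have h7 : 0 ≤ ‖t‖ := norm_nonneg t
        have h8 : 2 * (ε / (4 * (‖t‖ + 1))) * ‖t‖ = ε / 2 * (‖t‖ / (‖t‖ + 1)) := by
          field_simp; ring
        have h9 : ‖t‖ / (‖t‖ + 1) ≤ 1 := by
          rw [div_le_one (by positivity)]; linarith
        rw [h8]
        nlinarith
      show |‖A x' t'‖ - ‖A x t‖| < ε
      have e8 := norm_add_le (A x' (t' - t)) (A x' t - A x t)
      rw [← e2] at e8
      linarith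
  have hcomp : IsCompact (Λ ×ˢ Metric.sphere (0 : W) 1) :=
    hΛ.isCompact.prod (isCompact_sphere 0 1)
  rcases (Λ ×ˢ Metric.sphere (0 : W) 1).eq_empty_or_nonempty with h0 | h0
  · refine ⟨1, one_pos, fun x hx t => ?_⟩
    have ht : t = 0 := by
      by_contra hne
      have : ((x, (‖t‖⁻¹ : ℝ) • t) : M × W) ∈ Λ ×ˢ Metric.sphere (0 : W) 1 := by
        refine ⟨hx, ?_⟩
        rw [mem_sphere_zero_iff_norm, norm_smul, norm_inv, norm_norm,
          inv_mul_cancel₀ (norm_ne_zero_iff.2 hne)]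
      rw [h0] at this
      exact this
    rw [ht, norm_zero]
    positivity
  · obtain ⟨⟨x₀, t₀⟩, ⟨hx₀, ht₀⟩, hmin⟩ := hcomp.exists_isMinOn h0 hcont.continuousOn
    have hpos : 0 < ‖A x₀ t₀‖ := by
      rw [norm_pos_iff]
      intro h2
      have h3 : orb E Φ x₀ t₀ = 0 := he.inj x₀ (by rw [map_zero]; exact h2)
      have h4 := hfree x₀ hx₀ t₀ h3
      have h5 : ‖t₀‖ = 1 := mem_sphere_zero_iff_norm.1 ht₀
      rw [h4, norm_zero] at h5
      exact zero_ne_one h5
    refine ⟨‖A x₀ t₀‖⁻¹, by positivity, fun x hx t => ?_⟩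
    rcases eq_or_ne t 0 with rfl | ht
    · rw [norm_zero]; positivity
    have ht' : 0 < ‖t‖ := norm_pos_iff.2 ht
    have h2 : ((x, (‖t‖⁻¹ : ℝ) • t) : M × W) ∈ Λ ×ˢ Metric.sphere (0 : W) 1 := by
      refine ⟨hx, ?_⟩
      rw [mem_sphere_zero_iff_norm, norm_smul, norm_inv, norm_norm, inv_mul_cancel₀ ht'.ne']
    have h3 : ‖A x₀ t₀‖ ≤ ‖A x ((‖t‖⁻¹ : ℝ) • t)‖ := hmin h2
    rw [hAs, norm_smul, norm_inv, norm_norm] at h3
    have h4 : ‖A x₀ t₀‖ * ‖t‖ ≤ ‖A x t‖ := by
      have := mul_le_mul_of_nonneg_right h3 ht'.le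
      have h5 : ‖t‖⁻¹ * ‖A x t‖ * ‖t‖ = ‖A x t‖ := by field_simp
      linarith
    rw [inv_mul_eq_div, le_div_iff₀ hpos]
    linarith

end Q263.HS
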