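import Mathlib
import Pool.Agent.Q263.HS.Stab

/-! Axiom A and no cycles. -/

set_option autoImplicit false
set_option linter.unusedSectionVars false

open scoped Manifold ContDiff Topology Uniformity
open Set Filter Pool.Agent.H721R2 Pool.Agent.H718R2.G Q263.HR

namespace Q263.HS

universe u v w

section chain

variable {N : Type u} [MetricSpace N] [CompactSpace N]

theorem chainRec_of_metric {f : N ≃ₜ N} {z : N} (hz : z ∈ Pool.Agent.H728R2.OS.ChainRec f) :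
    ChainRec f univ z := by
  intro V hV hd
  have h1 : V ∈ 𝓤 N := by
    rw [compactSpace_uniformity]
    simp only [mem_iSup]
    exact fun x => hV.mem_nhds (hd x)
  obtain ⟨ε, hε, h2⟩ := Metric.mem_uniformity_dist.1 h1
  obtain ⟨k, c, hk, h0, h3, h4⟩ := hz ε hε
  exact ⟨k, c, hk, h0, h3, fun _ => mem_univ _, fun i hi => h2 (h4 i hi)⟩

theorem metric_of_chainRec {f : N ≃ₜ N} {z : N} {Λ : Set N} (hz : ChainRec f Λ z) :
    z ∈ Pool.Agent.H728R2.OS.ChainRec f := by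
  intro ε hε
  obtain ⟨k, c, hk, h0, h3, -, h4⟩ := hz {p | dist p.1 p.2 < ε}
    (isOpen_lt (continuous_fst.dist continuous_snd) continuous_const)
    (fun x => by rw [Set.mem_ofPred_eq, dist_self]; exact hε)
  exact ⟨k, c, hk, h0, h3, h4⟩

theorem chainRec_mono {M : Type v} [TopologicalSpace M] {g : M → M} {A B : Set M} (h : A ⊆ B)
    {z : M} (hz : ChainRec g A z) : ChainRec g B z := by
  intro V hV hd
  obtain ⟨k, c, hk, h0, h3, h5, h4⟩ := hz V hV hd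
  exact ⟨k, c, hk, h0, h3, fun i => h (h5 i), h4⟩

theorem per_omega {f : N ≃ₜ N} : Pool.Agent.H728R2.OS.Per f ⊆ Pool.Agent.H728R2.OS.Omega f := by
  rintro x ⟨k, hk, hx⟩ U hU
  exact ⟨k, hk, x, ⟨x, mem_of_mem_nhds hU, hx⟩, mem_of_mem_nhds hU⟩

theorem omega_closed {f : N ≃ₜ N} : IsClosed (Pool.Agent.H728R2.OS.Omega f) := by
  rw [← isOpen_compl_iff, isOpen_iff_mem_nhds]
  intro x hx
  have h1 : ∃ U ∈ 𝓝 x, ¬ ∃ k : ℕ, 0 < k ∧ ((f^[k]) '' U ∩ U).Nonempty := by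
    by_contra hcon
    push Not at hcon
    exact hx fun U hU => hcon U hU
  obtain ⟨U, hU, h2⟩ := h1
  obtain ⟨O, hOU, hO, hxO⟩ := mem_nhds_iff.1 hU
  refine mem_of_superset (hO.mem_nhds hxO) fun y hy hy2 => h2 ?_
  exact hy2 U (mem_of_superset (hO.mem_nhds hy) hOU)

theorem omega_image (f : N ≃ₜ N) (h : Pool.Agent.H728R2.OS.Omega f ⊆
    closure (Pool.Agent.H728R2.OS.Per f)) :
    f '' Pool.Agent.H728R2.OS.Omega f = Pool.Agent.H728R2.OS.Omega f := by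
  have h1 : Pool.Agent.H728R2.OS.Omega f = closure (Pool.Agent.H728R2.OS.Per f) :=
    h.antisymm (closure_minimal per_omega omega_closed)
  have h2 : f '' Pool.Agent.H728R2.OS.Per f = Pool.Agent.H728R2.OS.Per f := by
    apply Subset.antisymm
    · rintro _ ⟨x, ⟨k, hk, hx⟩, rfl⟩
      refine ⟨k, hk, ?_⟩
      rw [← Function.iterate_succ_apply, Function.iterate_succ_apply', hx]
    · rintro x ⟨k, hk, hx⟩
      refine ⟨f^[k - 1] x, ⟨k, hk, ?_⟩, ?_⟩
      · rw [← Function.iterate_add_apply, add_comm, Function.iterate_add_apply, hx]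
      · have h3 : f (f^[k - 1] x) = f^[k - 1 + 1] x := (Function.iterate_succ_apply' f (k - 1) x).symm
        rw [h3, Nat.sub_add_cancel hk, hx]
  rw [h1, f.image_closure, h2]

end chain

section

variable {E : Type u} [NormedAddCommGroup E] [NormedSpace ℝ E] [FiniteDimensional ℝ E]
  {M : Type v} [MetricSpace M] [CompactSpace M] [ChartedSpace E M]

theorem IsHyp.trans [IsManifold 𝓘(ℝ, E) 1 M] {f : M ≃ₜ M} {Λ : Set M} (h : IsHyp E f Λ) :
    IsTransHyp E f (fun (_ : V 0) (x : M) => x) Λ := by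
  obtain ⟨Nm, Es, Eu, C, a, h⟩ := h
  refine ⟨Nm, Es, Eu, C, a, {
    toRates := h.toRates
    free := fun _ _ t _ => Subsingleton.elim _ _
    sum := ?_ }⟩
  intro x hx v
  have h1 : v ∈ Es x ⊔ Eu x := by
    rw [(h.compl x hx).sup_eq_top]
    exact Submodule.mem_top
  obtain ⟨s, hs, u, hu, hsu⟩ := Submodule.mem_sup.1 h1
  refine ⟨s, hs, u, hu, 0, ?_⟩
  have h2 : vel E (fun (_ : V 0) (x : M) => x) x (0 : V 0) = 0 :=
    map_zero (orb E (fun (_ : V 0) (x : M) => x) x)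
  rw [h2, add_zero]
  exact hsu

theorem ContOn.mono [IsManifold 𝓘(ℝ, E) 1 M] {Λ Λ' : Set M}
    {Z : ∀ x : M, Submodule ℝ (TangentSpace 𝓘(ℝ, E) x)} (h : ContOn Λ Z) (hsub : Λ' ⊆ Λ)
    (hcl : IsClosed Λ') : ContOn Λ' Z := by
  have hc : IsClosed {p : TangentBundle 𝓘(ℝ, E) M | p.1 ∈ Λ'} :=
    hcl.preimage (FiberBundle.continuous_proj E (TangentSpace 𝓘(ℝ, E)))
  have : {p : TangentBundle 𝓘(ℝ, E) M | p.1 ∈ Λ' ∧ p.2 ∈ Z p.1} =
      {p : TangentBundle 𝓘(ℝ, E) M | p.1 ∈ Λ'} ∩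
        {p : TangentBundle 𝓘(ℝ, E) M | p.1 ∈ Λ ∧ p.2 ∈ Z p.1} := by
    ext p
    exact ⟨fun hp => ⟨hp.1, hsub hp.1, hp.2⟩, fun hp => ⟨hp.1, hp.2.2⟩⟩
  unfold ContOn
  rw [this]
  exact hc.inter h

theorem IsHyp.mono [IsManifold 𝓘(ℝ, E) 1 M] {f : M ≃ₜ M} {Λ Λ' : Set M} (h : IsHyp E f Λ)
    (hsub : Λ' ⊆ Λ) (hcl : IsClosed Λ') (hinv : f '' Λ' = Λ') : IsHyp E f Λ' := by
  obtain ⟨Nm, Es, Eu, C, a, h⟩ := h
  exact ⟨Nm, Es, Eu, C, a, {
    norm := h.norm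
    closed := hcl
    inv := hinv
    a_pos := h.a_pos
    a_lt := h.a_lt
    compl := fun x hx => h.compl x (hsub hx)
    cont_s := h.cont_s.mono hsub hcl
    cont_u := h.cont_u.mono hsub hcl
    map_s := fun x hx => h.map_s x (hsub hx)
    map_u := fun x hx => h.map_u x (hsub hx)
    rate_s := fun k x hx => h.rate_s k x (hsub hx)
    rate_u := fun k x hx => h.rate_u k x (hsub hx) }⟩

/-- a diffeomorphism whose chain recurrent set is contained in a hyperbolic set -/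
theorem chain_hyp [IsManifold 𝓘(ℝ, E) ∞ M]
    (hTR : S_TR.{u, v, 0}) (hFL : S_FL.{u, v, 0}) (hANG : S_ANG.{u, v, 0})
    (hCONT : S_CONT.{u, v, 0}) (hLOW : S_LOW.{u, v, 0}) (hCH : S_CHAIN.{v}) (hCRR : S_CRR.{v})
    (f : M ≃ₜ M) (hsm : ContMDiff 𝓘(ℝ, E) 𝓘(ℝ, E) 1 f)
    (hsm' : ContMDiff 𝓘(ℝ, E) 𝓘(ℝ, E) 1 f.symm) {Λ : Set M} (h : IsHyp E f Λ)
    (hCR : Pool.Agent.H728R2.OS.ChainRec f ⊆ Λ) :
    AxiomA E f ∧ Pool.Agent.H728R2.OS.NoCycle f ∧
    Pool.Agent.H728R2.OS.ChainRec f = Pool.Agent.H728R2.OS.Omega f := by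
  have h0 : Pool.Agent.H728R2.OS.ChainRec f ⊆ closure (Pool.Agent.H728R2.OS.Per f) := by
    intro z hz
    have h1 : ChainRec f univ z := chainRec_of_metric hz
    have h2 := hCRR M f f.continuous z h1
    have h3 : ChainRec f Λ z := chainRec_mono (fun x hx => hCR (metric_of_chainRec hx)) h2
    rw [mem_closure_iff_nhds]
    intro U hU
    -- the trivial action of the trivial group
    have hact : IsAct E (fun (_ : V 0) (x : M) => x) :=
      ⟨fun _ => rfl, fun _ _ _ => rfl, contMDiff_snd⟩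
    obtain ⟨y, hy, m, T, hm, -, hT, -⟩ := relper hTR hFL hANG hCONT hLOW hCH f hsm hsm' hact
      (fun _ _ => rfl) h.trans z h3 U hU 1 one_pos
    exact ⟨y, hy, m, hm, hT⟩
  have h1 : Pool.Agent.H728R2.OS.Omega f ⊆ Pool.Agent.H728R2.OS.ChainRec f := fun x hx =>
    Pool.Agent.H728R2.OS.NC.R_of_omega hx
  have h2 : closure (Pool.Agent.H728R2.OS.Per f) ⊆ Pool.Agent.H728R2.OS.Omega f :=
    closure_minimal per_omega omega_closed
  exact ⟨⟨h.mono (h1.trans hCR) omega_closed (omega_image f (h1.trans h0)), h1.trans h0⟩,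
    Pool.Agent.H728R2.OS.noCycle_of_chainRec f (h0.trans h2), (h0.trans h2).antisymm h1⟩

end

end Q263.HS
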