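import Mathlib
import Pool.Agent.Q263.HS.Main
import Pool.Agent.Q150.HR.TR
import Pool.Agent.Q263.HR.Chain
import Pool.Agent.Q223.HS.Fl
import Pool.Agent.Q223.HS.Cont
import Pool.Agent.Q176.HS.Ang
import Pool.Agent.Q146.HS.CRR
import Pool.Agent.Q263.HS.Low

/-! Assembly of project HS. -/

set_option autoImplicit false
set_option linter.unusedSectionVars false

open scoped Manifold ContDiff Topology
open Set Filter Pool.Agent.H721R2 Pool.Agent.H718R2.G Q263.HR Pool.Agent.TH80.OMS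

namespace Q263.HS

universe u

variable {n : ℕ} {N : Type u}

theorem stable_no_centre [TopologicalSpace N] [T2Space N] [CompactSpace N]
    [ChartedSpace (V n) N] [IsManifold (𝓡 n) ∞ N] {r : ℕ∞} (hr : 1 ≤ r) {F : DiffM n N r}
    (hF : OmegaStable n N r F) :
    ∃ U : Set (DiffM n N r), IsOpen[strongTop n N r] U ∧ F ∈ U ∧
      ∀ G ∈ U, ∀ Λ : Set N, IsCentreHyp (V n) r G.toHomeomorph Λ → Λ = ∅ := by
  obtain ⟨U, hU, hFU, hfin⟩ := finite_per hr hF
  refine ⟨U, hU, hFU, fun G hG Λ h => ?_⟩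
  obtain ⟨W, _, _, _, _, Φ, hΦ, hc, hT⟩ := h
  exact no_trans tr Pool.Agent.Q223.HS.fl ang Pool.Agent.Q223.HS.cont low chain omega hr hU hfin G
    hG hΦ hc hT

theorem stable_axiomA [MetricSpace N] [CompactSpace N]
    [ChartedSpace (V n) N] [IsManifold (𝓡 n) ∞ N] {r : ℕ∞} (hr : 1 ≤ r) {F : DiffM n N r}
    (hF : OmegaStable n N r F) (h : ChainCovered (V n) r F.toHomeomorph) :
    AxiomA (V n) F.toHomeomorph ∧ Pool.Agent.H728R2.OS.NoCycle F.toHomeomorph ∧
    Pool.Agent.H728R2.OS.ChainRec F.toHomeomorph =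
      Pool.Agent.H728R2.OS.Omega F.toHomeomorph := by
  obtain ⟨Λ₀, S, h₀, hS, hCR⟩ := h
  obtain ⟨U, hU, hFU, h⟩ := stable_no_centre hr hF
  have h1 : Pool.Agent.H728R2.OS.ChainRec F.toHomeomorph ⊆ Λ₀ := by
    intro x hx
    rcases hCR hx with h2 | ⟨Λ, hΛ, hxΛ⟩
    · exact h2
    · rw [h F hFU Λ (hS Λ hΛ)] at hxΛ
      exact hxΛ.elim
  exact chain_hyp tr Pool.Agent.Q223.HS.fl ang Pool.Agent.Q223.HS.cont low chain crr F.toHomeomorph
    (F.contMDiff.of_le (by exact_mod_cast hr)) (F.symm.contMDiff.of_le (by exact_mod_cast hr)) h₀ h1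

end Q263.HS
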